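import Pool.Agent.Work.MP_a6e60d_ag.Sm.Ext
import Pool.Agent.Work.MP_a6e60d_ag.DG.Good

/-!
MP_a6e60d_ag: thick closures under DG functors; tensor products of modules in thick closures.
-/

open CategoryTheory TensorProduct CochainComplex HomComplex

namespace Orl

universe w

variable {k : Type w} [CommRing k]

/-- DG functors preserve homotopy retracts -/
lemma IsRetract.map {A E : DGCat.{0, 1} k} (F : DGFun A E) {t : ℤ} {a b : A.Obj}
    (h : DGCat.IsRetract t a b) : DGCat.IsRetract t (F.obj a) (F.obj b) := by
  obtain ⟨p, r, hp, hr, s, hs⟩ := h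
  refine ⟨F.map p, F.map r, ?_, ?_, F.map s, ?_⟩
  · rw [← F.map_d, hp, map_zero]
  · rw [← F.map_d, hr, map_zero]
  · rw [← F.map_d, hs, map_sub, F.map_comp, F.map_id]

/-- DG functors preserve thick closures -/
theorem Thick.map {A E : DGCat.{0, 1} k} (F : DGFun A E) {g a : A.Obj}
    (h : DGCat.Thick g a) : DGCat.Thick (F.obj g) (F.obj a) := by
  induction h with
  | gen => exact .gen
  | cone f hf e _ _ ha hb =>
    exact .cone (F.map f) (by rw [← F.map_d, hf, map_zero]) (F.mapCone e) ha hb
  | retract t h _ hb => exact .retract t (IsRetract.map F h) hb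

/-- thick closures are transitive -/
theorem Thick.trans {A : DGCat.{0, 1} k} {g a b : A.Obj} (h : DGCat.Thick g a)
    (h' : DGCat.Thick a b) : DGCat.Thick g b := by
  induction h' with
  | gen => exact h
  | cone f hf e _ _ ha hb => exact .cone f hf e ha hb
  | retract t h _ hb => exact .retract t h hb

end Orl

namespace Orl

variable {k : Type} [CommRing k] {R S : DGAlg.{0} k}

lemma self_tens_self (R S : DGAlg.{0} k) : R.self.tens S.self = (R.tensor S).self := rfl

/-- The tensor product of two modules in the thick closures of the free modules of rank one is in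
the thick closure of the free module of rank one. -/
theorem thick_tens {U : DGMod R} {W : DGMod S} (hU : DGCat.Thick (A := modDG R) R.self U)
    (hW : DGCat.Thick (A := modDG S) S.self W) :
    DGCat.Thick (A := modDG (R.tensor S)) (R.tensor S).self (U.tens W) := by
  have h₁ := Thick.map (extR R.self S) hW
  have h₂ := Thick.map (extL R W) hU
  exact Thick.trans h₁ h₂

end Orl
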