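import Pool.Agent.Work.MP_a6e60d_ag.Sm.Ext
import Pool.Agent.Work.MP_a6e60d_ag.DG.Bimod
import Pool.Agent.Work.MP_a6e60d_ag.DG.Kinj
import Pool.Agent.Work.MP_a6e60d_ag.DG.RichMod
import Mathlib.LinearAlgebra.Basis.VectorSpace
import Mathlib.Algebra.Module.Projective

/-!
MP_a6e60d_ag: complexes of vector spaces: acyclic complexes are contractible, quasi-isomorphisms
are homotopy equivalences; tensor products preserve quasi-isomorphisms.
-/

open CategoryTheory TensorProduct CochainComplex HomComplex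

namespace Orl

variable {k : Type} [Field k]

/-- elementary form of acyclicity -/
def CxAcyclic (C : CochainComplex (ModuleCat.{0} k) ℤ) : Prop :=
  ∀ (n : ℤ) (x : C.X n), C.d n (n + 1) x = 0 → ∃ y : C.X (n - 1), C.d (n - 1) n y = x

/-- a linear map has a linear section over its range -/
lemma exists_section_range {V W : Type} [AddCommGroup V] [AddCommGroup W] [Module k V]
    [Module k W] (f : V →ₗ[k] W) : ∃ s : W →ₗ[k] V, ∀ y, (∃ x, f x = y) → f (s y) = y := by
  obtain ⟨s, hs⟩ := f.rangeRestrict.exists_rightInverse_of_surjective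
    (LinearMap.range_rangeRestrict f)
  obtain ⟨t, ht⟩ := s.exists_extend
  refine ⟨t, fun y hy => ?_⟩
  have h₁ : t y = s ⟨y, hy⟩ := LinearMap.congr_fun ht (⟨y, hy⟩ : LinearMap.range f)
  rw [h₁]
  exact congrArg Subtype.val (LinearMap.congr_fun hs ⟨y, hy⟩)

/-- An acyclic complex of vector spaces is contractible. -/
theorem exists_contraction {C : CochainComplex (ModuleCat.{0} k) ℤ} (hC : CxAcyclic C) :
    ∃ s : Cochain C C (-1), δ (-1) 0 s = Cochain.ofHom (𝟙 C) := by
  have H : ∀ (n m : ℤ) (_ : m + 1 = n), ∃ s : C.X n →ₗ[k] C.X m,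
      ∀ y, C.d n (n + 1) y = 0 → C.d m n (s y) = y := by
    intro n m h
    obtain ⟨s, hs⟩ := exists_section_range (C.d m n).hom
    refine ⟨s, fun y hy => hs y ?_⟩
    obtain rfl : m = n - 1 := by lia
    exact hC n y hy
  choose S hS using H
  have dd : ∀ (a b c : ℤ) (x : C.X a), C.d b c (C.d a b x) = 0 := fun a b c x => by
    rw [← ModuleCat.comp_apply, C.d_comp_d]; rfl
  refine ⟨Cochain.mk fun p q hpq => ModuleCat.ofHom
    (S p q (by lia) ∘ₗ (LinearMap.id - (S (p + 1) p rfl) ∘ₗ (C.d p (p + 1)).hom)), ?_⟩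
  refine mod_cochain_ext fun p q hpq x => ?_
  obtain rfl : p = q := by lia
  rw [v_δ (by lia) _ hpq (q₁ := p - 1) (q₂ := p + 1) (by lia) rfl]
  have e₁ : C.d (p + 1) (p + 1 + 1) (C.d p (p + 1) x) = 0 := dd _ _ _ _
  have e₂ := hS (p + 1) p rfl (C.d p (p + 1) x) e₁
  have e₃ : C.d p (p + 1) (x - S (p + 1) p rfl (C.d p (p + 1) x)) = 0 := by
    rw [map_sub, e₂, sub_self]
  have e₄ := hS p (p - 1) (by lia) _ e₃
  change C.d (p - 1) p (S p (p - 1) _ (x - S (p + 1) p _ (C.d p (p + 1) x))) +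
    (0 : ℤ).negOnePow • S (p + 1) p _ (C.d p (p + 1) x -
      S (p + 1 + 1) (p + 1) rfl (C.d (p + 1) (p + 1 + 1) (C.d p (p + 1) x))) = _
  rw [e₄, e₁, map_zero, sub_zero, Int.negOnePow_zero, one_smul, sub_add_cancel, Cochain.ofHom_v]
  rfl

variable {K L : CochainComplex (ModuleCat.{0} k) ℤ}

/-- The cochain `f` of degree `0` is closed and induces isomorphisms on cohomology. -/
structure ElQis (f : Cochain K L 0) : Prop where
  closed : δ 0 1 f = 0
  inj : ∀ (n : ℤ) (x : K.X n), K.d n (n + 1) x = 0 →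
    (∃ y : L.X (n - 1), L.d (n - 1) n y = f.v n n (add_zero n) x) →
      ∃ z : K.X (n - 1), K.d (n - 1) n z = x
  surj : ∀ (n : ℤ) (y : L.X n), L.d n (n + 1) y = 0 →
    ∃ x : K.X n, K.d n (n + 1) x = 0 ∧
      ∃ z : L.X (n - 1), L.d (n - 1) n z = y - f.v n n (add_zero n) x

/-- a homotopy inverse of a cochain of degree `0` -/
structure HInv (f : Cochain K L 0) (g : Cochain L K 0) : Prop where
  closed : δ 0 1 f = 0
  closed' : δ 0 1 g = 0
  left : ∃ h : Cochain K K (-1), δ (-1) 0 h = f.comp g (add_zero 0) - Cochain.ofHom (𝟙 K)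
  right : ∃ h : Cochain L L (-1), δ (-1) 0 h = g.comp f (add_zero 0) - Cochain.ofHom (𝟙 L)

lemma v_sub {n p q : ℤ} (z z' : Cochain K L n) (h : p + n = q) (x : K.X p) :
    (z - z').v p q h x = z.v p q h x - z'.v p q h x := rfl

lemma v_id {p : ℤ} (h : p + 0 = p) (x : K.X p) : (Cochain.ofHom (𝟙 K)).v p p h x = x := by
  rw [Cochain.ofHom_v]
  rfl

/-- the components of a closed cochain of degree `0` commute with the differentials -/
lemma v_closed {f : Cochain K L 0} (hf : δ 0 1 f = 0) {p q : ℤ} (h : p + 1 = q) (x : K.X p) :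
    L.d p q (f.v p p (add_zero p) x) = f.v q q (add_zero q) (K.d p q x) := by
  have := v_δ (show (0 : ℤ) + 1 = 1 by lia) f (show p + 1 = q from h) (add_zero p) h x
  rw [hf, Int.negOnePow_one, Units.neg_smul, one_smul] at this
  rw [← sub_eq_zero, sub_eq_add_neg, ← this]
  rfl

/-- A cochain with a homotopy inverse is a quasi-isomorphism. -/
theorem HInv.elQis {f : Cochain K L 0} {g : Cochain L K 0} (H : HInv f g) : ElQis f where
  closed := H.closed
  inj n x hx := by
    rintro ⟨y, hy⟩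
    obtain ⟨h, hh⟩ := H.left
    have e := v_δ (show (-1 : ℤ) + 1 = 0 by lia) h (add_zero n) (show n + -1 = n - 1 by lia)
      (rfl : n + 1 = n + 1) x
    rw [hh, v_sub, v_id, v_comp (add_zero 0) f g (add_zero n) (add_zero n) (add_zero n), hx,
      map_zero, smul_zero, add_zero, ← hy] at e
    have e' := v_closed H.closed' (show n - 1 + 1 = n by lia) y
    refine ⟨g.v (n - 1) (n - 1) (add_zero _) y - h.v n (n - 1) (by lia) x, ?_⟩
    rw [map_sub, e', ← e]
    abel
  surj n y hy := by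
    obtain ⟨h, hh⟩ := H.right
    have e := v_δ (show (-1 : ℤ) + 1 = 0 by lia) h (add_zero n) (show n + -1 = n - 1 by lia)
      (rfl : n + 1 = n + 1) y
    rw [hh, v_sub, v_id, v_comp (add_zero 0) g f (add_zero n) (add_zero n) (add_zero n), hy,
      map_zero, smul_zero, add_zero] at e
    refine ⟨g.v n n (add_zero n) y, ?_, -h.v n (n - 1) (by lia) y, ?_⟩
    · rw [v_closed H.closed' rfl, hy, map_zero]
    · rw [map_neg, ← e]
      abel

lemma ElQis.inj' {f : Cochain K L 0} (hf : ElQis f) {m n p : ℤ} (h : m + 1 = n) (h' : n + 1 = p)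
    (x : K.X n) (hx : K.d n p x = 0) (y : L.X m) (hy : L.d m n y = f.v n n (add_zero n) x) :
    ∃ z : K.X m, K.d m n z = x := by
  obtain rfl : m = n - 1 := by lia
  subst h'
  exact hf.inj n x hx ⟨y, hy⟩

/-- the mapping cone of a quasi-isomorphism is acyclic -/
theorem cxAcyclic_mappingCone (φ : K ⟶ L) (hφ : ElQis (Cochain.ofHom φ)) :
    CxAcyclic (mappingCone φ) := by
  intro n z hz
  have hφv : ∀ (m : ℤ) (x : K.X m), (Cochain.ofHom φ).v m m (add_zero m) x = φ.f m x := by
    intro m x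
    rw [Cochain.ofHom_v]
  have h₁ := DGMod.cone_fst_d φ (show n + 1 = n + 1 from rfl) (show n + 1 + 1 = n + 1 + 1 from rfl) z
  have h₂ := DGMod.cone_snd_d φ (show n + 1 = n + 1 from rfl) z
  change ((mappingCone φ).d n (n + 1)).hom z = 0 at hz
  rw [hz, map_zero] at h₁ h₂
  set a := ((mappingCone.fst φ).1.v n (n + 1) rfl).hom z with ha
  set b := ((mappingCone.snd φ).v n n (add_zero n)).hom z with hb
  have h₃ : K.d (n + 1) (n + 1 + 1) a = 0 := by
    have := h₁
    rw [eq_comm, neg_eq_zero] at this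
    exact this
  have h₄ : φ.f (n + 1) a = L.d n (n + 1) (-b) := by
    rw [map_neg, eq_neg_iff_add_eq_zero]
    exact h₂.symm
  obtain ⟨a', ha'⟩ := hφ.inj' (show n + 1 = n + 1 from rfl) rfl a h₃ (-b) (by rw [hφv, h₄])
  have comm : ∀ (i j : ℤ) (x : K.X i), φ.f j (K.d i j x) = L.d i j (φ.f i x) := fun i j x => by
    rw [← ModuleCat.comp_apply, ← ModuleCat.comp_apply, φ.comm]
  obtain ⟨x, hx, z', hz'⟩ := hφ.surj n (b + φ.f n a') (by
    rw [map_add, ← comm, ha', h₄, map_neg, add_neg_cancel])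
  rw [hφv] at hz'
  refine ⟨((mappingCone.inl φ).v n (n - 1) (by lia)).hom (x - a') +
    ((mappingCone.inr φ).f (n - 1)).hom z', ?_⟩
  have e : n - 1 + 1 = n := by lia
  refine DGMod.cone_ext φ (show n + 1 = n + 1 from rfl) ?_ ?_
  · refine (DGMod.cone_fst_d φ (show n - 1 + 1 = n from e) (show n + 1 = n + 1 from rfl) _).trans ?_
    rw [map_add, DGMod.cone_fst_inl φ e, DGMod.cone_fst_inr φ e, add_zero]
    change -(K.d n (n + 1) (x - a')) = _
    rw [map_sub, hx, ha', zero_sub, neg_neg]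
  · refine (DGMod.cone_snd_d φ (show n - 1 + 1 = n from e) _).trans ?_
    simp only [map_add]
    rw [DGMod.cone_fst_inl φ e, DGMod.cone_fst_inr φ e, DGMod.cone_snd_inl φ e,
      DGMod.cone_snd_inr, map_zero, map_zero, add_zero, zero_add]
    change φ.f n (x - a') + L.d (n - 1) n z' = _
    rw [hz', map_sub]
    abel

/-- A quasi-isomorphism of complexes of vector spaces has a homotopy inverse. -/
theorem ElQis.exists_hInv {f : Cochain K L 0} (hf : ElQis f) : ∃ g, HInv f g := by
  obtain ⟨φ, rfl⟩ : ∃ φ : K ⟶ L, Cochain.ofHom φ = f :=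
    ⟨(Cocycle.mk f 1 (by lia) hf.closed).homOf, Cocycle.cochain_ofHom_homOf_eq_coe _⟩
  obtain ⟨s, hs⟩ := exists_contraction (cxAcyclic_mappingCone φ hf)
  have hid : IsBdry (A := cxDG k (ModuleCat.{0} k)) ((cxDG k _).id (mappingCone φ)) :=
    IsBdry.of (A := cxDG k (ModuleCat.{0} k)) (a := mappingCone φ) (b := mappingCone φ) s hs
  have H : ∀ P : CochainComplex (ModuleCat.{0} k) ℤ,
      QIso (postc (A := cxDG k (ModuleCat.{0} k)) (a := K) (b := L) (Cochain.ofHom φ) P) := by
    intro P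
    refine postc_qIso_of_cone (cxCone (k := k) φ) fun n z hz => ?_
    have := IsBdry.comp_left hz hid (add_zero n)
    rwa [DGCat.comp_id] at this
  have hφ : IsClosed (A := cxDG k (ModuleCat.{0} k)) (a := K) (b := L) (Cochain.ofHom φ) :=
    isClosed_of (A := cxDG k (ModuleCat.{0} k)) (a := K) (b := L) (zero_add 1) hf.closed
  obtain ⟨g, hg, h⟩ := (H L).exists_closed (IsClosed.id (A := cxDG k (ModuleCat.{0} k)) L)
  have h' := h.symm
  refine ⟨g, hf.closed, hg.d 1, ?_, ?_⟩
  · have h₁ : IsClosed (A := cxDG k (ModuleCat.{0} k))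
        ((cxDG k (ModuleCat.{0} k)).comp (add_zero 0) (Cochain.ofHom φ) g -
          (cxDG k (ModuleCat.{0} k)).id K) := (hφ.comp hg _).sub (IsClosed.id _)
    have h₂ : IsBdry (A := cxDG k (ModuleCat.{0} k)) (postc (A := cxDG k (ModuleCat.{0} k))
        (a := K) (b := L) (Cochain.ofHom φ) K 0
        ((cxDG k (ModuleCat.{0} k)).comp (add_zero 0) (Cochain.ofHom φ) g -
          (cxDG k (ModuleCat.{0} k)).id K)) := by
      have := IsBdry.comp_left hφ h' (add_zero 0)
      rw [map_sub, DGCat.comp_id] at this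
      rw [postc_apply, map_sub, LinearMap.sub_apply, DGCat.id_comp,
        DGCat.assoc _ (add_zero 0) (add_zero 0) (add_zero 0) (add_zero 0)]
      exact this
    exact ((H K).isBdry h₁ h₂).exists (-1) (by lia)
  · exact h'.exists (-1) (by lia)

/-- the cochain `z ⊗ 1` has a homotopy inverse if `z` has one -/
theorem HInv.tenL {f : Cochain K L 0} {g : Cochain L K 0} (H : HInv f g)
    (M : CochainComplex (ModuleCat.{0} k) ℤ) : HInv (tenL f M) (tenL g M) where
  closed := by
    rw [← tenL_δ, H.closed]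
    have := tenL_smul (L := M) (0 : k) (0 : Cochain K L 1)
    rwa [zero_smul, zero_smul] at this
  closed' := by
    rw [← tenL_δ, H.closed']
    have := tenL_smul (L := M) (0 : k) (0 : Cochain L K 1)
    rwa [zero_smul, zero_smul] at this
  left := by
    obtain ⟨h, hh⟩ := H.left
    refine ⟨Orl.tenL h M, ?_⟩
    rw [← tenL_δ, hh, sub_eq_add_neg, tenL_add, tenL_comp, ← neg_one_smul k, tenL_smul, tenL_id,
      neg_one_smul, ← sub_eq_add_neg]
  right := by
    obtain ⟨h, hh⟩ := H.right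
    refine ⟨Orl.tenL h M, ?_⟩
    rw [← tenL_δ, hh, sub_eq_add_neg, tenL_add, tenL_comp, ← neg_one_smul k, tenL_smul, tenL_id,
      neg_one_smul, ← sub_eq_add_neg]

/-- the cochain `1 ⊗ z` has a homotopy inverse if `z` has one -/
theorem HInv.tenR {f : Cochain K L 0} {g : Cochain L K 0} (H : HInv f g)
    (M : CochainComplex (ModuleCat.{0} k) ℤ) : HInv (tenR M f) (tenR M g) where
  closed := by
    rw [← tenR_δ, H.closed]
    have := tenR_smul (K := M) (0 : k) (0 : Cochain K L 1)
    rwa [zero_smul, zero_smul] at this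
  closed' := by
    rw [← tenR_δ, H.closed']
    have := tenR_smul (K := M) (0 : k) (0 : Cochain L K 1)
    rwa [zero_smul, zero_smul] at this
  left := by
    obtain ⟨h, hh⟩ := H.left
    refine ⟨Orl.tenR M h, ?_⟩
    rw [← tenR_δ, hh, sub_eq_add_neg, tenR_add, tenR_comp, ← neg_one_smul k, tenR_smul, tenR_id,
      neg_one_smul, ← sub_eq_add_neg]
  right := by
    obtain ⟨h, hh⟩ := H.right
    refine ⟨Orl.tenR M h, ?_⟩
    rw [← tenR_δ, hh, sub_eq_add_neg, tenR_add, tenR_comp, ← neg_one_smul k, tenR_smul, tenR_id,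
      neg_one_smul, ← sub_eq_add_neg]

section mods

variable {R S : DGAlg.{0} k} {U U' : DGMod R} {W W' : DGMod S}

lemma isQis_iff_elQis {f : (modDG R).Hom U U' 0} : DGMod.IsQis f ↔ ElQis f.1 :=
  ⟨fun h => ⟨congrArg Subtype.val h.closed, h.inj, h.surj⟩,
    fun h => ⟨Subtype.ext h.closed, h.inj, h.surj⟩⟩

/-- Over a field the tensor product with a module preserves quasi-isomorphisms. -/
theorem isQis_extL {f : (modDG R).Hom U U' 0} (hf : DGMod.IsQis f) (W : DGMod S) :
    DGMod.IsQis (M := U.tens W) (N := U'.tens W) ((extL R W).map f) := by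
  obtain ⟨g, hg⟩ := (isQis_iff_elQis.1 hf).exists_hInv
  exact isQis_iff_elQis.2 (hg.tenL W.cx).elQis

/-- Over a field the tensor product with a module preserves quasi-isomorphisms. -/
theorem isQis_extR (U : DGMod R) {f : (modDG S).Hom W W' 0} (hf : DGMod.IsQis f) :
    DGMod.IsQis (M := U.tens W) (N := U.tens W') ((extR U S).map f) := by
  obtain ⟨g, hg⟩ := (isQis_iff_elQis.1 hf).exists_hInv
  exact isQis_iff_elQis.2 (hg.tenR U.cx).elQis

end mods

end Orl
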