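import Pool.Agent.Work.MP_a6e60d_ag.DG.Tensor

/-!
MP_a6e60d_ag: the tensor product (over `k`) of two right DG modules is a DG functor in each
variable.
-/

open CategoryTheory TensorProduct CochainComplex HomComplex

namespace Orl

universe v w

variable {k : Type w} [CommRing k]

lemma sgn_congr {M : Type*} [AddCommGroup M] {a b : ℤ} (h : Even (a - b)) (x : M) :
    a.negOnePow • x = b.negOnePow • x := by
  rw [(Int.negOnePow_eq_iff a b).2 h]

lemma sgn_smul {M : Type*} [AddCommGroup M] (a b : ℤ) (x : M) :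
    a.negOnePow • b.negOnePow • x = (a + b).negOnePow • x := by
  rw [smul_smul, ← Int.negOnePow_add]

lemma map_units_smul {M N : Type*} [AddCommGroup M] [AddCommGroup N] [Module k M] [Module k N]
    (f : M →ₗ[k] N) (a : ℤˣ) (x : M) : f (a • x) = a • f x := by
  rw [Units.smul_def, Units.smul_def, map_zsmul]

variable {K K' K'' L L' L'' : CochainComplex (ModuleCat.{v} k) ℤ}

lemma tp_units_smul {i j n : ℤ} (h : i + j = n) (a : ℤˣ) (x : K.X i) (y : L.X j) :
    tp h (a • x) y = a • tp h x y := by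
  rcases Int.units_eq_one_or a with rfl | rfl <;> simp

lemma tpair_units_smul (f : GBil K K' K'') (g : GBil L L' L'') {n m p : ℤ} (h : n + m = p)
    (a : ℤˣ) (x : TensX K L n) (y : TensX K' L' m) :
    tpair f g h (a • x) y = a • tpair f g h x y := by
  rcases Int.units_eq_one_or a with rfl | rfl <;> simp

/-- the components of the cochain `z ⊗ 1` -/
noncomputable def tenLv {n : ℤ} (z : Cochain K K' n) (L : CochainComplex (ModuleCat.{v} k) ℤ)
    {p q : ℤ} (h : p + n = q) : TensX K L p →ₗ[k] TensX K' L q :=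
  tdesc fun i j hij =>
    (tp (K := K') (L := L) (n := q) (i := i + n) (j := j) (by lia)).comp (z.v i (i + n) rfl).hom

/-- the components of the cochain `1 ⊗ z` -/
noncomputable def tenRv (K : CochainComplex (ModuleCat.{v} k) ℤ) {n : ℤ} (z : Cochain L L' n)
    {p q : ℤ} (h : p + n = q) : TensX K L p →ₗ[k] TensX K L' q :=
  tdesc fun i j hij => (n * i).negOnePow •
    (tp (K := K) (L := L') (n := q) (i := i) (j := j + n) (by lia)).compl₂
      (z.v j (j + n) rfl).hom

lemma tenLv_tp {n p q i j i' : ℤ} (z : Cochain K K' n) (h : p + n = q) (e : i + j = p)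
    (hi : i + n = i') (x : K.X i) (y : L.X j) :
    tenLv z L h (tp e x y) = tp (by lia) (z.v i i' hi x) y := by
  subst hi
  rw [tenLv, tdesc_tp]
  rfl

lemma tenRv_tp {n p q i j j' : ℤ} (z : Cochain L L' n) (h : p + n = q) (e : i + j = p)
    (hj : j + n = j') (x : K.X i) (y : L.X j) :
    tenRv K z h (tp e x y) = (n * i).negOnePow • tp (by lia) x (z.v j j' hj y) := by
  subst hj
  rw [tenRv, tdesc_tp]
  rfl

lemma v_add {n p q : ℤ} (z z' : Cochain K K' n) (h : p + n = q) (x : K.X p) :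
    (z + z').v p q h x = z.v p q h x + z'.v p q h x := rfl

lemma v_smul {n p q : ℤ} (c : k) (z : Cochain K K' n) (h : p + n = q) (x : K.X p) :
    (c • z).v p q h x = c • z.v p q h x := rfl

lemma v_comp {n m l : ℤ} (h : n + m = l) (z : Cochain K K' n) (z' : Cochain K' K'' m)
    {a b c : ℤ} (hac : a + l = c) (hab : a + n = b) (hbc : b + m = c) (x : K.X a) :
    (z.comp z' h).v a c hac x = z'.v b c hbc (z.v a b hab x) := by
  rw [Cochain.comp_v z z' h a b c hab hbc, ModuleCat.comp_apply]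

lemma v_δ {n m : ℤ} (h : n + 1 = m) (z : Cochain K K' n) {p q q₁ q₂ : ℤ} (hpq : p + m = q)
    (h₁ : p + n = q₁) (h₂ : p + 1 = q₂) (x : K.X p) :
    (δ n m z).v p q hpq x = K'.d q₁ q (z.v p q₁ h₁ x) +
      m.negOnePow • z.v q₂ q (by lia) (K.d p q₂ x) := by
  rw [δ_v n m h z p q hpq q₁ q₂ (by lia) h₂]
  rfl

lemma tenLv_add {n p q : ℤ} (z z' : Cochain K K' n) (h : p + n = q) :
    tenLv (z + z') L h = tenLv z L h + tenLv z' L h :=
  tens_hom_ext fun a b e x y => by
    rw [LinearMap.add_apply, tenLv_tp _ h e rfl, tenLv_tp _ h e rfl, tenLv_tp _ h e rfl,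
      v_add, map_add, LinearMap.add_apply]

lemma tenRv_add {n p q : ℤ} (z z' : Cochain L L' n) (h : p + n = q) :
    tenRv K (z + z') h = tenRv K z h + tenRv K z' h :=
  tens_hom_ext fun a b e x y => by
    rw [LinearMap.add_apply, tenRv_tp _ h e rfl, tenRv_tp _ h e rfl, tenRv_tp _ h e rfl,
      v_add, map_add, smul_add]

lemma tenLv_smul {n p q : ℤ} (c : k) (z : Cochain K K' n) (h : p + n = q) :
    tenLv (c • z) L h = c • tenLv z L h :=
  tens_hom_ext fun a b e x y => by
    rw [LinearMap.smul_apply, tenLv_tp _ h e rfl, tenLv_tp _ h e rfl, v_smul, map_smul,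
      LinearMap.smul_apply]

lemma tenRv_smul {n p q : ℤ} (c : k) (z : Cochain L L' n) (h : p + n = q) :
    tenRv K (c • z) h = c • tenRv K z h :=
  tens_hom_ext fun a b e x y => by
    rw [LinearMap.smul_apply, tenRv_tp _ h e rfl, tenRv_tp _ h e rfl, v_smul, map_smul,
      smul_comm]

lemma tenLv_comp {n m l p q r : ℤ} (h : n + m = l) (z : Cochain K K' n) (z' : Cochain K' K'' m)
    (hpq : p + n = q) (hqr : q + m = r) (hpr : p + l = r) (x : TensX K L p) :
    tenLv (z.comp z' h) L hpr x = tenLv z' L hqr (tenLv z L hpq x) := by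
  induction x using tens_induction with
  | h0 => simp
  | ha x x' hx hx' => rw [map_add, map_add, map_add, hx, hx']
  | ht a b e x y =>
    rw [tenLv_tp _ hpr e rfl, tenLv_tp _ hpq e rfl, tenLv_tp (i' := a + l) _ _ _ (by lia),
      v_comp h z z' rfl rfl (by lia)]

lemma tenRv_comp {n m l p q r : ℤ} (h : n + m = l) (z : Cochain L L' n) (z' : Cochain L' L'' m)
    (hpq : p + n = q) (hqr : q + m = r) (hpr : p + l = r) (x : TensX K L p) :
    tenRv K (z.comp z' h) hpr x = tenRv K z' hqr (tenRv K z hpq x) := by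
  induction x using tens_induction with
  | h0 => simp
  | ha x x' hx hx' => rw [map_add, map_add, map_add, hx, hx']
  | ht a b e x y =>
    rw [tenRv_tp _ hpr e rfl, tenRv_tp _ hpq e rfl, map_units_smul,
      tenRv_tp (j' := b + l) _ _ _ (by lia), v_comp h z z' rfl rfl (by lia), sgn_smul]
    subst h
    exact sgn_congr ⟨0, by ring⟩ _

lemma tenLv_id {p : ℤ} (h : p + 0 = p) (x : TensX K L p) :
    tenLv (Cochain.ofHom (𝟙 K)) L h x = x := by
  induction x using tens_induction with
  | h0 => simp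
  | ha x x' hx hx' => rw [map_add, hx, hx']
  | ht a b e x y =>
    rw [tenLv_tp (i' := a) _ _ _ (by lia)]
    simp

lemma tenRv_id {p : ℤ} (h : p + 0 = p) (x : TensX K L p) :
    tenRv K (Cochain.ofHom (𝟙 L)) h x = x := by
  induction x using tens_induction with
  | h0 => simp
  | ha x x' hx hx' => rw [map_add, hx, hx']
  | ht a b e x y =>
    rw [tenRv_tp (j' := b) _ _ _ (by lia)]
    simp

lemma tenLv_δ {n m : ℤ} (h : n + 1 = m) (z : Cochain K K' n) {p q q₁ q₂ : ℤ} (hpq : p + m = q)
    (h₁ : p + n = q₁) (h₂ : p + 1 = q₂) (h₃ : q₁ + 1 = q) (x : TensX K L p) :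
    tenLv (δ n m z) L hpq x = tD K' L h₃ (tenLv z L h₁ x) +
      m.negOnePow • tenLv z L (by lia) (tD K L h₂ x) := by
  induction x using tens_induction with
  | h0 => simp
  | ha x x' hx hx' =>
    simp only [map_add, hx, hx', smul_add]
    abel
  | ht a b e x y =>
    rw [tenLv_tp _ hpq e rfl, tenLv_tp _ h₁ e rfl, tD_tp h₂ e rfl rfl,
      tD_tp (i' := a + m) h₃ _ (by lia) rfl, v_δ h z rfl rfl rfl]
    simp only [map_add, LinearMap.add_apply, smul_add, map_units_smul, tp_units_smul]
    rw [tenLv_tp (i' := a + m) _ _ _ (by lia), tenLv_tp (i' := a + n) _ _ _ rfl, sgn_smul]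
    rw [sgn_congr (a := m + a) (b := a + n + 1) (by
      subst h
      exact ⟨0, by ring⟩), Int.negOnePow_succ, Units.neg_smul]
    abel

lemma tenRv_δ {n m : ℤ} (h : n + 1 = m) (z : Cochain L L' n) {p q q₁ q₂ : ℤ} (hpq : p + m = q)
    (h₁ : p + n = q₁) (h₂ : p + 1 = q₂) (h₃ : q₁ + 1 = q) (x : TensX K L p) :
    tenRv K (δ n m z) hpq x = tD K L' h₃ (tenRv K z h₁ x) +
      m.negOnePow • tenRv K z (by lia) (tD K L h₂ x) := by
  induction x using tens_induction with
  | h0 => simp
  | ha x x' hx hx' =>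
    simp only [map_add, hx, hx', smul_add]
    abel
  | ht a b e x y =>
    rw [tenRv_tp _ hpq e rfl, tenRv_tp _ h₁ e rfl, tD_tp h₂ e rfl rfl, map_units_smul,
      tD_tp (j' := b + m) h₃ _ rfl (by lia), v_δ h z rfl rfl rfl]
    simp only [map_add, smul_add, map_units_smul]
    rw [tenRv_tp (j' := b + n) _ _ _ rfl, tenRv_tp (j' := b + m) _ _ _ (by lia)]
    simp only [sgn_smul]
    rw [sgn_congr (a := m + (a + n * a)) (b := m * a + m) (by
        subst h
        exact ⟨0, by ring⟩),
      sgn_congr (a := m + n * (a + 1)) (b := n * a + 1) (by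
        subst h
        exact ⟨n, by ring⟩), Int.negOnePow_succ, Units.neg_smul,
      sgn_congr (a := n * a + a) (b := m * a) (by
        subst h
        exact ⟨0, by ring⟩)]
    abel

section lin

variable {R S : DGAlg.{v} k} {U U' : DGMod R} {W W' : DGMod S}

lemma tenLv_act {n : ℤ} {z : Cochain U.cx U'.cx n} (hz : z ∈ DGMod.lin U U' n) {p q m p' q' : ℤ}
    (h : p + n = q) (hp : p + m = p') (hq : q + m = q') (x : TensX U.cx W.cx p)
    (r : TensX R.cx S.cx m) :
    tenLv z W.cx (by lia) (tpair (fun _ _ _ h => U.act h) (fun _ _ _ h => W.act h) hp x r) =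
      tpair (fun _ _ _ h => U'.act h) (fun _ _ _ h => W.act h) hq (tenLv z W.cx h x) r := by
  induction x using tens_induction with
  | h0 => simp
  | ha x x' hx hx' => simp only [map_add, LinearMap.add_apply, hx, hx']
  | ht a b e x y =>
    induction r using tens_induction with
    | h0 => simp
    | ha r r' hr hr' => simp only [map_add, hr, hr']
    | ht c d e' r s =>
      rw [tpair_tp _ _ hp e e' rfl rfl, map_units_smul, tenLv_tp (i' := a + n) _ _ _ rfl,
        tenLv_tp (i' := a + n + c) _ _ _ (by lia), tpair_tp _ _ hq _ e' rfl rfl,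
        hz a (a + n) rfl c (a + c) (a + n + c) rfl rfl x r]

lemma tenRv_act {n : ℤ} {z : Cochain W.cx W'.cx n} (hz : z ∈ DGMod.lin W W' n) {p q m p' q' : ℤ}
    (h : p + n = q) (hp : p + m = p') (hq : q + m = q') (x : TensX U.cx W.cx p)
    (r : TensX R.cx S.cx m) :
    tenRv U.cx z (by lia) (tpair (fun _ _ _ h => U.act h) (fun _ _ _ h => W.act h) hp x r) =
      tpair (fun _ _ _ h => U.act h) (fun _ _ _ h => W'.act h) hq (tenRv U.cx z h x) r := by
  induction x using tens_induction with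
  | h0 => simp
  | ha x x' hx hx' => simp only [map_add, LinearMap.add_apply, hx, hx']
  | ht a b e x y =>
    induction r using tens_induction with
    | h0 => simp
    | ha r r' hr hr' => simp only [map_add, hr, hr']
    | ht c d e' r s =>
      rw [tpair_tp _ _ hp e e' rfl rfl, map_units_smul, tenRv_tp (j' := b + n) _ _ _ rfl,
        tenRv_tp (j' := b + n + d) _ _ _ (by lia), tpair_units_smul,
        tpair_tp _ _ hq _ e' rfl rfl, hz b (b + n) rfl d (b + d) (b + n + d) rfl rfl y s,
        sgn_smul, sgn_smul]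
      exact sgn_congr ⟨0, by ring⟩ _

end lin

/-- the cochain `z ⊗ 1` -/
noncomputable def tenL {n : ℤ} (z : Cochain K K' n) (L : CochainComplex (ModuleCat.{v} k) ℤ) :
    Cochain (tensCx K L) (tensCx K' L) n :=
  Cochain.mk fun _ _ hpq => ModuleCat.ofHom (tenLv z L hpq)

/-- the cochain `1 ⊗ z`: `(1 ⊗ z) (x ⊗ y) = (-1) ^ (|z| |x|) x ⊗ z y` -/
noncomputable def tenR (K : CochainComplex (ModuleCat.{v} k) ℤ) {n : ℤ} (z : Cochain L L' n) :
    Cochain (tensCx K L) (tensCx K L') n :=
  Cochain.mk fun _ _ hpq => ModuleCat.ofHom (tenRv K z hpq)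

lemma tenL_v {n p q : ℤ} (z : Cochain K K' n) (h : p + n = q) (x : TensX K L p) :
    (tenL z L).v p q h x = tenLv z L h x := rfl

lemma tenR_v {n p q : ℤ} (z : Cochain L L' n) (h : p + n = q) (x : TensX K L p) :
    (tenR K z).v p q h x = tenRv K z h x := rfl

lemma mod_cochain_ext {n : ℤ} {M N : CochainComplex (ModuleCat.{v} k) ℤ} {z z' : Cochain M N n}
    (h : ∀ (p q : ℤ) (hpq : p + n = q) (x : M.X p), z.v p q hpq x = z'.v p q hpq x) : z = z' :=
  Cochain.ext _ _ fun p q hpq => ModuleCat.hom_ext (LinearMap.ext (h p q hpq))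

lemma tenL_add {n : ℤ} (z z' : Cochain K K' n) : tenL (z + z') L = tenL z L + tenL z' L :=
  mod_cochain_ext fun _ _ hpq x => LinearMap.congr_fun (tenLv_add (L := L) z z' hpq) x

lemma tenR_add {n : ℤ} (z z' : Cochain L L' n) : tenR K (z + z') = tenR K z + tenR K z' :=
  mod_cochain_ext fun _ _ hpq x => LinearMap.congr_fun (tenRv_add (K := K) z z' hpq) x

lemma tenL_smul {n : ℤ} (c : k) (z : Cochain K K' n) : tenL (c • z) L = c • tenL z L :=
  mod_cochain_ext fun _ _ hpq x => LinearMap.congr_fun (tenLv_smul (L := L) c z hpq) x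

lemma tenR_smul {n : ℤ} (c : k) (z : Cochain L L' n) : tenR K (c • z) = c • tenR K z :=
  mod_cochain_ext fun _ _ hpq x => LinearMap.congr_fun (tenRv_smul (K := K) c z hpq) x

lemma tenL_comp {n m l : ℤ} (h : n + m = l) (z : Cochain K K' n) (z' : Cochain K' K'' m) :
    tenL (z.comp z' h) L = (tenL z L).comp (tenL z' L) h :=
  mod_cochain_ext fun p q hpq x => by
    rw [v_comp h (tenL z L) (tenL z' L) hpq rfl (by lia)]
    exact tenLv_comp h z z' rfl (by lia) hpq x

lemma tenR_comp {n m l : ℤ} (h : n + m = l) (z : Cochain L L' n) (z' : Cochain L' L'' m) :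
    tenR K (z.comp z' h) = (tenR K z).comp (tenR K z') h :=
  mod_cochain_ext fun p q hpq x => by
    rw [v_comp h (tenR K z) (tenR K z') hpq rfl (by lia)]
    exact tenRv_comp h z z' rfl (by lia) hpq x

lemma tenL_id : tenL (Cochain.ofHom (𝟙 K)) L = Cochain.ofHom (𝟙 (tensCx K L)) :=
  mod_cochain_ext fun p q hpq x => by
    obtain rfl : p = q := by lia
    rw [Cochain.ofHom_v]
    exact tenLv_id hpq x

lemma tenR_id : tenR K (Cochain.ofHom (𝟙 L)) = Cochain.ofHom (𝟙 (tensCx K L)) :=
  mod_cochain_ext fun p q hpq x => by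
    obtain rfl : p = q := by lia
    rw [Cochain.ofHom_v]
    exact tenRv_id hpq x

lemma tenL_δ {n m : ℤ} (z : Cochain K K' n) : tenL (δ n m z) L = δ n m (tenL z L) := by
  by_cases h : n + 1 = m
  swap
  · rw [δ_shape _ _ h, δ_shape _ _ h]
    have := tenL_smul (L := L) (0 : k) (0 : Cochain K K' m)
    rwa [zero_smul, zero_smul] at this
  · refine mod_cochain_ext fun p q hpq x => ?_
    have h₃ : p + n + 1 = q := by lia
    rw [v_δ h (tenL z L) hpq rfl rfl, tensCx_d_apply h₃]
    refine (tenLv_δ h z hpq rfl rfl h₃ x).trans ?_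
    congr 2
    exact congrArg (tenLv z L _) (tensCx_d_apply rfl x).symm

lemma tenR_δ {n m : ℤ} (z : Cochain L L' n) : tenR K (δ n m z) = δ n m (tenR K z) := by
  by_cases h : n + 1 = m
  swap
  · rw [δ_shape _ _ h, δ_shape _ _ h]
    have := tenR_smul (K := K) (0 : k) (0 : Cochain L L' m)
    rwa [zero_smul, zero_smul] at this
  · refine mod_cochain_ext fun p q hpq x => ?_
    have h₃ : p + n + 1 = q := by lia
    rw [v_δ h (tenR K z) hpq rfl rfl, tensCx_d_apply h₃]
    refine (tenRv_δ h z hpq rfl rfl h₃ x).trans ?_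
    congr 2
    exact congrArg (tenRv K z _) (tensCx_d_apply rfl x).symm

variable {R S : DGAlg.{v} k}

lemma tenL_lin {U U' : DGMod R} (W : DGMod S) {n : ℤ} {z : Cochain U.cx U'.cx n}
    (hz : z ∈ DGMod.lin U U' n) : tenL z W.cx ∈ DGMod.lin (U.tens W) (U'.tens W) n :=
  fun _ _ h _ _ _ hp hq x r => tenLv_act (W := W) hz h hp hq x r

lemma tenR_lin (U : DGMod R) {W W' : DGMod S} {n : ℤ} {z : Cochain W.cx W'.cx n}
    (hz : z ∈ DGMod.lin W W' n) : tenR U.cx z ∈ DGMod.lin (U.tens W) (U.tens W') n :=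
  fun _ _ h _ _ _ hp hq x r => tenRv_act (U := U) hz h hp hq x r

/-- the DG functor `U ↦ U ⊗ W` -/
noncomputable def extL (R : DGAlg.{v} k) {S : DGAlg.{v} k} (W : DGMod S) :
    DGFun (modDG R) (modDG (R.tensor S)) where
  obj U := DGMod.tens U W
  map {U U' n} :=
    { toFun := fun z => (⟨tenL z.1 W.cx, tenL_lin W z.2⟩ : DGMod.lin _ _ n)
      map_add' := fun z z' => Subtype.ext (tenL_add z.1 z'.1)
      map_smul' := fun c z => Subtype.ext (tenL_smul c z.1) }
  map_d n m f := Subtype.ext (tenL_δ f.1)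
  map_id U := Subtype.ext tenL_id
  map_comp h f g := Subtype.ext (tenL_comp h f.1 g.1)

/-- the DG functor `W ↦ U ⊗ W` -/
noncomputable def extR {R : DGAlg.{v} k} (U : DGMod R) (S : DGAlg.{v} k) :
    DGFun (modDG S) (modDG (R.tensor S)) where
  obj W := DGMod.tens U W
  map {W W' n} :=
    { toFun := fun z => (⟨tenR U.cx z.1, tenR_lin U z.2⟩ : DGMod.lin _ _ n)
      map_add' := fun z z' => Subtype.ext (tenR_add z.1 z'.1)
      map_smul' := fun c z => Subtype.ext (tenR_smul c z.1) }
  map_d n m f := Subtype.ext (tenR_δ f.1)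
  map_id W := Subtype.ext tenR_id
  map_comp h f g := Subtype.ext (tenR_comp h f.1 g.1)

end Orl
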