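import Mathlib.RingTheory.Unramified.Field
import Mathlib.Data.Matrix.Basis
import Mathlib.LinearAlgebra.TensorProduct.Finiteness
import Mathlib.LinearAlgebra.FiniteDimensional.Basic

/-!
MP_a6e60d_ag: separable algebras: separability elements of separable field extensions and of
matrix algebras.
-/

open TensorProduct

namespace Orl

universe u v w

/-- A separability element of the algebra `A`: `t = ∑ x_i ⊗ y_i` with `∑ x_i y_i = 1` and
`∑ z x_i ⊗ y_i = ∑ x_i ⊗ y_i z` for all `z`. -/
structure IsSepElt (k : Type w) [CommRing k] {A : Type v} [Ring A] [Algebra k A]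
    (t : A ⊗[k] A) : Prop where
  mul : LinearMap.mul' k A t = 1
  comm : ∀ z : A, (LinearMap.mulLeft k z).rTensor A t = (LinearMap.mulRight k z).lTensor A t

/-- the algebra is separable -/
def IsSepAlg (k : Type w) [CommRing k] (A : Type v) [Ring A] [Algebra k A] : Prop :=
  ∃ t : A ⊗[k] A, IsSepElt k t

variable {k : Type w} [CommRing k] {A : Type v} [Ring A] [Algebra k A] {B : Type u} [Ring B]
  [Algebra k B]

/-- a separability element as a finite sum -/
lemma IsSepAlg.exists_sum (h : IsSepAlg k A) : ∃ (m : ℕ) (x y : Fin m → A),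
    ∑ i, x i * y i = 1 ∧ ∀ z, ∑ i, (z * x i) ⊗ₜ[k] y i = ∑ i, x i ⊗ₜ[k] (y i * z) := by
  obtain ⟨t, ht⟩ := h
  obtain ⟨m, x, y, rfl⟩ := TensorProduct.exists_sum_tmul_eq t
  refine ⟨m, x, y, by simpa using ht.mul, fun z => by simpa using ht.comm z⟩

lemma IsSepAlg.of_sum {ι : Type*} (s : Finset ι) (x y : ι → A) (h₁ : ∑ i ∈ s, x i * y i = 1)
    (h₂ : ∀ z, ∑ i ∈ s, (z * x i) ⊗ₜ[k] y i = ∑ i ∈ s, x i ⊗ₜ[k] (y i * z)) : IsSepAlg k A :=
  ⟨∑ i ∈ s, x i ⊗ₜ[k] y i, by simpa using h₁, fun z => by simpa using h₂ z⟩

/-- transport along an isomorphism of algebras -/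
theorem IsSepAlg.equiv (h : IsSepAlg k A) (e : A ≃ₐ[k] B) : IsSepAlg k B := by
  obtain ⟨m, x, y, h₁, h₂⟩ := h.exists_sum
  refine .of_sum Finset.univ (fun i => e (x i)) (fun i => e (y i)) ?_ fun z => ?_
  · have := congrArg e h₁
    simpa using this
  · have := congrArg (TensorProduct.map e.toLinearMap e.toLinearMap) (h₂ (e.symm z))
    simpa using this

/-- the opposite algebra -/
theorem IsSepAlg.op (h : IsSepAlg k A) : IsSepAlg k Aᵐᵒᵖ := by
  obtain ⟨m, x, y, h₁, h₂⟩ := h.exists_sum
  refine .of_sum Finset.univ (fun i => MulOpposite.op (y i)) (fun i => MulOpposite.op (x i)) ?_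
    fun z => ?_
  · have := congrArg MulOpposite.op h₁
    simpa using this
  · have := congrArg (TensorProduct.comm k _ _) (congrArg (TensorProduct.map
      (MulOpposite.opLinearEquiv k).toLinearMap (MulOpposite.opLinearEquiv k).toLinearMap)
      (h₂ z.unop))
    simpa using this.symm

/-- finite separable field extensions -/
theorem isSepAlg_field (k D : Type v) [Field k] [Field D] [Algebra k D] [FiniteDimensional k D]
    [Algebra.IsSeparable k D] : IsSepAlg k D := by
  obtain ⟨t, h₁, h₂⟩ := (Algebra.FormallyUnramified.iff_exists_tensorProduct (R := k)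
    (S := D)).1 (Algebra.FormallyUnramified.of_isSeparable k D)
  refine ⟨t, ?_, fun z => ?_⟩
  · have e : ∀ t : D ⊗[k] D, LinearMap.mul' k D t = Algebra.TensorProduct.lmul' k t := by
      intro t
      rfl
    rw [e]
    exact h₂
  · have h := h₁ z
    rw [sub_mul, sub_eq_zero] at h
    have e₁ : ∀ t : D ⊗[k] D, (z ⊗ₜ[k] (1 : D)) * t = (LinearMap.mulLeft k z).rTensor D t := by
      intro t
      induction t using TensorProduct.induction_on with
      | zero => simp
      | tmul a b => simp
      | add a b ha hb => rw [mul_add, ha, hb, map_add]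
    have e₂ : ∀ t : D ⊗[k] D, ((1 : D) ⊗ₜ[k] z) * t = (LinearMap.mulRight k z).lTensor D t := by
      intro t
      induction t using TensorProduct.induction_on with
      | zero => simp
      | tmul a b => simp [mul_comm]
      | add a b ha hb => rw [mul_add, ha, hb, map_add]
    rw [← e₁, ← e₂, h]

/-- matrix algebras -/
theorem IsSepAlg.matrix (h : IsSepAlg k A) {n : Type*} [Fintype n] [DecidableEq n] [Nonempty n] :
    IsSepAlg k (Matrix n n A) := by
  obtain ⟨m, x, y, h₁, h₂⟩ := h.exists_sum
  obtain ⟨o⟩ := ‹Nonempty n›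
  refine .of_sum (Finset.univ : Finset (n × Fin m)) (fun i => Matrix.single i.1 o (x i.2))
    (fun i => Matrix.single o i.1 (y i.2)) ?_ fun z => ?_
  · have e : ∀ i : n, ∑ c : Fin m, Matrix.single i o (x c) * Matrix.single o i (y c) =
        Matrix.single i i (1 : A) := by
      intro i
      rw [← h₁]
      simp only [Matrix.single_mul_single_same]
      exact (map_sum (Matrix.singleAddMonoidHom i i) (fun c => x c * y c) Finset.univ).symm
    rw [← Finset.univ_product_univ, Finset.sum_product]
    simp only [e]
    exact Matrix.sum_single_one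
  · induction z using Matrix.induction_on' with
    | h_zero => simp
    | h_add p q hp hq =>
      simp only [add_mul, mul_add, TensorProduct.add_tmul, TensorProduct.tmul_add,
        Finset.sum_add_distrib, hp, hq]
    | h_std_basis a b w =>
      have h₃ := congrArg (TensorProduct.map (Matrix.singleLinearMap k a o)
        (Matrix.singleLinearMap k o b)) (h₂ w)
      simp only [map_sum, TensorProduct.map_tmul] at h₃
      rw [← Finset.univ_product_univ, Finset.sum_product, Finset.sum_product]
      rw [Finset.sum_eq_single b, Finset.sum_eq_single a]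
      · simp only [Matrix.single_mul_single_same]
        exact h₃
      · intro i _ hi
        refine Finset.sum_eq_zero fun c _ => ?_
        rw [Matrix.single_mul_single_of_ne (h := hi), TensorProduct.tmul_zero]
      · intro h
        exact absurd (Finset.mem_univ _) h
      · intro i _ hi
        refine Finset.sum_eq_zero fun c _ => ?_
        rw [Matrix.single_mul_single_of_ne (h := Ne.symm hi), TensorProduct.zero_tmul]
      · intro h
        exact absurd (Finset.mem_univ _) h

end Orl
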