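import Pool.Agent.Work.MP_a6e60d_ag.DG.Cx
import Pool.Agent.Work.MP_a6e60d_ag.DG.Blocks
import Pool.Agent.Work.MP_a6e60d_ag.Sm.Sep
import Mathlib.CategoryTheory.Preadditive.Biproducts
import Mathlib.Algebra.Homology.HomotopyCategory.HomComplexSingle
import Mathlib.Algebra.BigOperators.Ring.Finset

/-!
MP_a6e60d_ag: objects as complexes in degree `0`; decomposition of bounded complexes.
-/

open CategoryTheory CochainComplex HomComplex Limits

namespace Orl

universe v u w

section Single

variable {k : Type w} [CommRing k] {C : Type u} [Category.{v} C] [Preadditive C]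
  [HasZeroObject C] [Linear k C]

/-- the object `X` as a complex in degree `0` -/
noncomputable abbrev sgl (X : C) : CochainComplex C ℤ := (singleFunctor C 0).obj X

lemma sgl_isZero (X : C) {n : ℤ} (h : n ≠ 0) : IsZero ((sgl X).X n) :=
  HomologicalComplex.isZero_single_obj_X _ _ _ _ h

/-- there are no morphisms of nonzero degree -/
lemma sgl_eq_zero {X Y : C} {n : ℤ} (h : n ≠ 0) (z : Cochain (sgl X) (sgl Y) n) : z = 0 := by
  ext p q hpq
  by_cases hp : p = 0
  · exact (sgl_isZero Y (by lia)).eq_of_tgt _ _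
  · exact (sgl_isZero X hp).eq_of_src _ _

lemma δ_sgl {X Y : C} (n m : ℤ) (z : Cochain (sgl X) (sgl Y) n) : δ n m z = 0 := by
  by_cases h : m = 0
  · by_cases h' : n + 1 = m
    · rw [sgl_eq_zero (by lia) z]
      simp
    · exact δ_shape _ _ h' _
  · exact sgl_eq_zero h _

/-- the morphisms of degree `0` -/
noncomputable def sglEquiv (X Y : C) : (X ⟶ Y) ≃ₗ[k] Cochain (sgl X) (sgl Y) 0 where
  toFun f := Cochain.ofHom ((singleFunctor C 0).map f)
  map_add' f g := by rw [Functor.map_add, Cochain.ofHom_add]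
  map_smul' c f := by
    refine Cochain.ext₀ _ _ fun p => ?_
    rw [Functor.map_smul, RingHom.id_apply, Cochain.smul_v, Cochain.ofHom_v, Cochain.ofHom_v]
    rfl
  invFun z := (HomologicalComplex.singleObjXSelf (.up ℤ) 0 X).inv ≫ z.v 0 0 (add_zero 0) ≫
    (HomologicalComplex.singleObjXSelf (.up ℤ) 0 Y).hom
  left_inv f := by
    dsimp only
    rw [Cochain.ofHom_v]
    change _ ≫ ((HomologicalComplex.single C (.up ℤ) 0).map f).f 0 ≫ _ = f
    rw [HomologicalComplex.single_map_f_self]
    simp
  right_inv z := by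
    refine Cochain.ext₀ _ _ fun p => ?_
    by_cases hp : p = 0
    · subst hp
      rw [Cochain.ofHom_v]
      change ((HomologicalComplex.single C (.up ℤ) 0).map _).f 0 = _
      rw [HomologicalComplex.single_map_f_self]
      simp
      first
        | exact (congrArg _ (Iso.hom_inv_id _)).trans (Category.comp_id _)
        | erw [Category.assoc, Iso.hom_inv_id, Category.comp_id]
    · exact (sgl_isZero X hp).eq_of_src _ _

lemma sglEquiv_comp {X Y Z : C} (f : X ⟶ Y) (g : Y ⟶ Z) :
    (sglEquiv (k := k) X Y f).comp (sglEquiv (k := k) Y Z g) (add_zero 0) =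
      sglEquiv (k := k) X Z (f ≫ g) := by
  change (Cochain.ofHom _).comp (Cochain.ofHom _) _ = Cochain.ofHom _
  rw [← Cochain.ofHom_comp, Functor.map_comp]

lemma sglEquiv_id (X : C) : sglEquiv (k := k) X X (𝟙 X) = Cochain.ofHom (𝟙 (sgl X)) := by
  change Cochain.ofHom _ = _
  rw [CategoryTheory.Functor.map_id]

end Single

section Decomp

variable {C : Type u} [Category.{v} C] [Preadditive C] [HasZeroObject C]

/-- The decomposition of an object `X` as a finite direct sum of objects of the family `B`. -/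
structure ObjDecomp {r : ℕ} (B : Fin r → C) (X : C) where
  /-- the index types -/
  I : Fin r → Type
  fin : ∀ j, Fintype (I j)
  /-- the inclusions -/
  i : ∀ (j : Fin r) (_ : I j), B j ⟶ X
  /-- the projections -/
  p : ∀ (j : Fin r) (_ : I j), X ⟶ B j
  total : ∑ j, ∑ a, p j a ≫ i j a = 𝟙 X

attribute [instance] ObjDecomp.fin

omit [HasZeroObject C] in
/-- the decomposition of an object with an isomorphism to a direct sum -/
lemma exists_objDecomp {r : ℕ} (B : Fin r → C) (X : C) {m : ℕ} (t : Fin m → Fin r)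
    (i : ∀ a, B (t a) ⟶ X) (p : ∀ a, X ⟶ B (t a)) (h : ∑ a, p a ≫ i a = 𝟙 X) :
    Nonempty (ObjDecomp B X) := by
  classical
  refine ⟨⟨fun j => {a // t a = j}, fun j => inferInstance,
    fun j a => eqToHom (by rw [a.2]) ≫ i a.1, fun j a => p a.1 ≫ eqToHom (by rw [a.2]), ?_⟩⟩
  rw [← h, ← Finset.sum_fiberwise Finset.univ t]
  refine Finset.sum_congr rfl fun j _ => ?_
  have e : ∀ a : {a // t a = j}, (p a.1 ≫ eqToHom (by rw [a.2])) ≫
      (eqToHom (by rw [a.2]) : B j ⟶ B (t a.1)) ≫ i a.1 = p a.1 ≫ i a.1 := fun a => by simp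
  simp only [e]
  exact (Finset.sum_subtype (Finset.univ.filter fun a => t a = j) (p := fun a => t a = j)
    (fun a => by simp) (fun a => p a ≫ i a)).symm

variable {P : CochainComplex C ℤ}

lemma to_from_v {X : C} {d : ℤ} (f : P.X d ⟶ X) (g : X ⟶ P.X d) :
    ((Cochain.toSingleMk f (add_neg_cancel d)).comp (Cochain.fromSingleMk g (zero_add d))
      (neg_add_cancel d)).v d d (add_zero d) = f ≫ g := by
  rw [Cochain.comp_v _ _ (neg_add_cancel d) d 0 d (add_neg_cancel d) (zero_add d),
    Cochain.toSingleMk_v, Cochain.fromSingleMk_v]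
  exact (Category.assoc _ _ _).trans (congrArg _ (Iso.inv_hom_id_assoc _ _))

lemma to_from_v_eq_zero {X : C} {d n : ℤ} (h : n ≠ d) (f : P.X d ⟶ X) (g : X ⟶ P.X d) :
    ((Cochain.toSingleMk f (add_neg_cancel d)).comp (Cochain.fromSingleMk g (zero_add d))
      (neg_add_cancel d)).v n n (add_zero n) = 0 := by
  rw [Cochain.comp_v _ _ (neg_add_cancel d) n (n - d) n (by lia) (by lia),
    Cochain.toSingleMk_v_eq_zero _ _ _ _ _ h, zero_comp]

variable {r : ℕ} {B : Fin r → C}

lemma total_aux (hP : {n | ¬ IsZero (P.X n)}.Finite) (D : ∀ n, ObjDecomp B (P.X n)) :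
    ∑ j, ∑ a : (Σ n : hP.toFinset, (D n.1).I j),
      (Cochain.toSingleMk ((D a.1.1).p j a.2) (add_neg_cancel a.1.1)).comp
        (Cochain.fromSingleMk ((D a.1.1).i j a.2) (zero_add a.1.1)) (neg_add_cancel a.1.1) =
      Cochain.ofHom (𝟙 P) := by
  classical
  refine Cochain.ext₀ _ _ fun n => ?_
  let φ : Cochain P P 0 →+ (P.X n ⟶ P.X n) :=
    ⟨⟨fun z => z.v n n (add_zero n), rfl⟩, fun _ _ => rfl⟩
  have e : ∀ z : Cochain P P 0, z.v n n (add_zero n) = φ z := fun _ => rfl
  by_cases hn : IsZero (P.X n)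
  · exact hn.eq_of_src _ _
  have hn' : n ∈ hP.toFinset := by simpa using hn
  rw [e, map_sum φ]
  refine Eq.trans (Finset.sum_congr rfl fun j _ => ?_) (((D n).total).trans
    (Cochain.ofHom_v (𝟙 P) n).symm)
  rw [map_sum φ, Fintype.sum_sigma, Finset.sum_eq_single ⟨n, hn'⟩]
  · refine Finset.sum_congr rfl fun a _ => ?_
    exact to_from_v _ _
  · intro n' _ h
    refine Finset.sum_eq_zero fun a _ => ?_
    refine to_from_v_eq_zero (fun e => h (Subtype.ext e.symm)) _ _
  · intro h
    exact absurd (Finset.mem_univ _) h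

end Decomp

section Blocks

variable {k : Type} [CommRing k] {C : Type 1} [Category.{0} C] [Preadditive C]
  [HasZeroObject C] [Linear k C] {r : ℕ} {B : Fin r → C}

/-- objects as blocks in the DG category of complexes -/
theorem isBlocks_sgl (hdir : ∀ i j : Fin r, j < i → ∀ f : B i ⟶ B j, f = 0)
    (hfin : ∀ i j : Fin r, Module.Finite k (B i ⟶ B j)) :
    IsBlocks (A := cxDG k C) (fun j => (sgl (B j) : CochainComplex C ℤ)) where
  conc i j n f hn := sgl_eq_zero hn f
  dir i j n f hij := by
    by_cases hn : n = 0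
    · subst hn
      obtain ⟨g, rfl⟩ := (sglEquiv (k := k) (B i) (B j)).surjective f
      rw [hdir i j hij g]
      exact map_zero (sglEquiv (k := k) (B i) (B j))
    · exact sgl_eq_zero hn f
  fin i j := by
    have := hfin i j
    have h : Module.Finite k (Cochain (sgl (B i)) (sgl (B j)) 0) :=
      Module.Finite.equiv (sglEquiv (k := k) (B i) (B j))
    exact h

/-- a bounded complex whose terms are finite direct sums of the objects `B j` -/
noncomputable def Decomp.ofObj {P : CochainComplex C ℤ} (hP : {n | ¬ IsZero (P.X n)}.Finite)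
    (D : ∀ n, ObjDecomp B (P.X n)) :
    Decomp (A := cxDG k C) (fun j => (sgl (B j) : CochainComplex C ℤ)) P where
  I j := Σ n : hP.toFinset, (D n.1).I j
  fin _ := inferInstance
  deg _ a := a.1.1
  ι j a := Cochain.fromSingleMk ((D a.1.1).i j a.2) (zero_add _)
  π j a := Cochain.toSingleMk ((D a.1.1).p j a.2) (add_neg_cancel _)
  total := total_aux hP D

/-- separability elements -/
theorem exists_sepElt (X : C) (h : IsSepAlg k (End X)) :
    Nonempty (SepElt (A := cxDG k C) (sgl X : CochainComplex C ℤ)) := by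
  obtain ⟨m, x, y, h₁, h₂⟩ := h.exists_sum
  have one : ∑ q, (sglEquiv (k := k) X X (y q)).comp (sglEquiv (k := k) X X (x q))
      (add_zero 0) = Cochain.ofHom (𝟙 (sgl X)) := by
    have := congrArg (sglEquiv (k := k) X X) h₁
    rw [map_sum] at this
    refine Eq.trans (Finset.sum_congr rfl fun q _ => ?_) (this.trans (sglEquiv_id X))
    exact sglEquiv_comp (y q) (x q)
  have bal : ∀ c : Cochain (sgl X) (sgl X) 0,
      ∑ q, ((sglEquiv (k := k) X X (x q)).comp c (add_zero 0)) ⊗ₜ[k] sglEquiv (k := k) X X (y q) =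
      ∑ q, sglEquiv (k := k) X X (x q) ⊗ₜ[k]
        (c.comp (sglEquiv (k := k) X X (y q)) (add_zero 0)) := by
    intro c
    obtain ⟨z, rfl⟩ := (sglEquiv (k := k) X X).surjective c
    have := congrArg (TensorProduct.map (sglEquiv (k := k) X X).toLinearMap
      (sglEquiv (k := k) X X).toLinearMap) (h₂ z)
    rw [map_sum, map_sum] at this
    refine Eq.trans (Finset.sum_congr rfl fun q _ => ?_) (this.trans
      (Finset.sum_congr rfl fun q _ => ?_))
    · rw [TensorProduct.map_tmul]
      congr 1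
      exact sglEquiv_comp (x q) z
    · rw [TensorProduct.map_tmul]
      congr 1
      exact (sglEquiv_comp z (y q)).symm
  exact ⟨⟨Fin m, inferInstance, fun q => sglEquiv (k := k) X X (x q),
    fun q => sglEquiv (k := k) X X (y q), one, bal⟩⟩

end Blocks

end Orl
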