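import Pool.Agent.Work.MP_a6e60d_ag.Sm.AppLF
import Pool.Agent.Work.MP_a6e60d_ag.LF.PhiExt
import Pool.Agent.Work.MP_a6e60d_ag.LF.PsiR
import Pool.Agent.Work.MP_a6e60d_ag.LF.Blk

/-!
MP_a6e60d_ag: every block has left and right approximations in the thick closure of `P`.
-/

open CategoryTheory Limits Abelian Pretriangulated

attribute [-instance] CategoryTheory.catToReflQuiver

namespace Orl.LF

open Orl.Gal DerivedCategory

universe t₁ t₂ w w₀ w₁ w₂ w₃ w₄ v v₁ v' u u'

attribute [local instance] Abelian.hasFiniteBiproducts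

section gen

variable {k : Type w₀} [Field k] {Q : Type u} [Category.{v} Q] [Preadditive Q] [Linear k Q]
variable {C : Type u'} [Category.{v'} C] [Abelian C] [Linear k C] [HasExt.{w₁} C]
  [HasExt.{w₂} (LinFun k Q C)] [HasDerivedCategory.{t₁} C] [HasDerivedCategory.{t₂} (LinFun k Q C)]
variable (Λ : LamData.{w} k Q)

/-- the right adjoint is exact on the objects coinduced along `i` -/
def IsExactCoind {E : Type w₀} [Field E] [Algebra k E] (i : SingleObj E ⥤ Q) [i.Additive]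
    [i.Linear k] [∀ y, Module.Finite E (HomR i y)] (ΨR : LinFun k Q C ⥤ C) : Prop :=
  ∃ (W : Type v₁) (_ : AddCommGroup W) (_ : Module E W) (_ : Module.Finite E W),
    Nonempty (coind C i ⋙ ΨR ≅ tensL k E C W)

/-- **Right approximations of the coinduced objects.** -/
theorem rApp_coind' {E : Type w₀} [Field E] [Algebra k E] (i : SingleObj E ⥤ Q) [i.Additive]
    [i.Linear k] [∀ y, Module.Finite E (HomR i y)] {ΨR : LinFun k Q C ⥤ C}
    (adj : phi C Λ ⊣ ΨR) [ΨR.Additive] (h : IsExactCoind.{w₀, v, v₁} i ΨR) (M : ModObj k E C)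
    (G : C) (hM : ThkOf ((singleFunctor C 0).obj G) ((singleFunctor C 0).obj M.pt)) :
    RApp ((singleFunctor (LinFun k Q C) 0).obj ((phi C Λ).obj G))
      ((singleFunctor (LinFun k Q C) 0).obj ((coind C i).obj M)) := by
  obtain ⟨W, _, _, _, ⟨e⟩⟩ := h
  have h1 : PreservesFiniteLimits (coind C i ⋙ ΨR) := preservesFiniteLimits_of_natIso e.symm
  have h2 : PreservesFiniteColimits (coind C i ⋙ ΨR) := preservesFiniteColimits_of_natIso e.symm
  exact rApp_coind Λ i ΨR adj e M G (fun c n => phi_ext_bijective Λ G c n) hM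

end gen

section dat

variable {k F L : Type w₀} [Field k] [Field F] [Field L] [Algebra k F] [Algebra k L]
  (D : Dat k F L)
variable {C : Type u'} [Category.{v'} C] [Abelian C] [Linear k C]
variable {ιa ιb ιf : Type*} (ta : ιa → ModObj k F C) (tb : ιb → ModObj k L C)
  (tf : ιf → ModObj k F C)

/-- the values of a block -/
lemma blk_obj {S : ObjectProperty C} (hS : Orl.Q.Thk S) (ha : ∀ x, S (ta x).pt)
    (hb : ∀ x, S (tb x).pt) (hf : ∀ x, S (tf x).pt) {X : LinFun k (Ob D) C}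
    (hX : Blk D ta tb tf X) (x : Ob D) : S (X.obj.obj x) := by
  obtain ⟨s, ⟨e⟩⟩ := hX
  refine hS.iso ((ev x).mapIso e).symm ?_
  rcases s with y | y | y
  · exact thk_tens hS (ta y) (ha y) (HomL (Ob.ia D) x)
  · exact thk_tens hS (tb y) (hb y) (HomL (Ob.ib D) x)
  · exact thk_tens hS (tf y) (hf y) (HomL (Ob.iff D) x)

variable [HasExt.{w₁} C] [HasExt.{w₂} (LinFun k (Ob D) C)] [HasDerivedCategory.{t₁} C]
  [HasDerivedCategory.{t₂} (LinFun k (Ob D) C)]

/-- **Left approximations of the blocks.** -/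
theorem lApp_blk (G : C)
    (ha : ∀ x, ThkOf ((singleFunctor C 0).obj G) ((singleFunctor C 0).obj (ta x).pt))
    (hb : ∀ x, ThkOf ((singleFunctor C 0).obj G) ((singleFunctor C 0).obj (tb x).pt))
    (hf : ∀ x, ThkOf ((singleFunctor C 0).obj G) ((singleFunctor C 0).obj (tf x).pt))
    {X : LinFun k (Ob D) C} (hX : Blk D ta tb tf X) :
    LApp ((singleFunctor (LinFun k (Ob D) C) 0).obj ((phi C (Ob.lamData D)).obj G))
      ((singleFunctor (LinFun k (Ob D) C) 0).obj X) := by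
  obtain ⟨s, ⟨e⟩⟩ := hX
  refine (LApp _).prop_of_iso ((singleFunctor (LinFun k (Ob D) C) 0).mapIso e).symm ?_
  rcases s with y | y | y
  · exact lApp_ind (Ob.lamData D) (Ob.ia D) (ta y) G
      (fun c n => phi_ext_bijective (Ob.lamData D) c G n) (ha y)
  · exact lApp_ind (Ob.lamData D) (Ob.ib D) (tb y) G
      (fun c n => phi_ext_bijective (Ob.lamData D) c G n) (hb y)
  · exact lApp_ind (Ob.lamData D) (Ob.iff D) (tf y) G
      (fun c n => phi_ext_bijective (Ob.lamData D) c G n) (hf y)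

/-- **Right approximations of the blocks.** -/
theorem rApp_blk (G : C)
    (ha : ∀ x, ThkOf ((singleFunctor C 0).obj G) ((singleFunctor C 0).obj (ta x).pt))
    (hb : ∀ x, ThkOf ((singleFunctor C 0).obj G) ((singleFunctor C 0).obj (tb x).pt))
    (hf : ∀ x, ThkOf ((singleFunctor C 0).obj G) ((singleFunctor C 0).obj (tf x).pt))
    {X : LinFun k (Ob D) C} (hX : Blk D ta tb tf X) :
    RApp ((singleFunctor (LinFun k (Ob D) C) 0).obj ((phi C (Ob.lamData D)).obj G))
      ((singleFunctor (LinFun k (Ob D) C) 0).obj X) := by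
  obtain ⟨adj⟩ : Nonempty (phi C (Ob.lamData D) ⊣ psiR C (Ob.lamData D)) := psiRAdj _
  refine rApp_of_coind D G _ ?_ ?_ ?_ X ?_
  · exact fun M hM => rApp_coind' (Ob.lamData D) (Ob.ia D) adj
      (coind_psiR (Ob.lamData D) (Ob.ia D)) M G hM
  · exact fun M hM => rApp_coind' (Ob.lamData D) (Ob.ib D) adj
      (coind_psiR (Ob.lamData D) (Ob.ib D)) M G hM
  · exact fun M hM => rApp_coind' (Ob.lamData D) (Ob.iff D) adj
      (coind_psiR (Ob.lamData D) (Ob.iff D)) M G hM
  · exact blk_obj D ta tb tf (Orl.Q.Thk.ofDerived (ThkOf ((singleFunctor C 0).obj G))) ha hb hf hX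

end dat

section fin

variable {k F L : Type} [Field k] [Field F] [Field L] [Algebra k F] [Algebra k L]
  (D : Dat k F L)
variable {C : Type 1} [Category.{0} C] [Abelian C] [Linear k C]
variable {ιa ιb ιf : Type*} (ta : ιa → ModObj k F C) (tb : ιb → ModObj k L C)
  (tf : ιf → ModObj k F C)
variable [HasExt.{w₁} C] [HasExt.{w₂} (LinFun k (Ob D) C)] [HasDerivedCategory.{t₁} C]
  [HasDerivedCategory.{t₂} (LinFun k (Ob D) C)]

/-- the thick closures of `P` and of `Φ G` coincide -/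
lemma thkOf_of_iso_biprod {A : Type 1} [Category.{0} A] [Abelian A] [HasDerivedCategory.{t₂} A]
    {P : CochainComplex A ℤ} {N : DerivedCategory A}
    (e : Nonempty (Q.obj P ≅ N ⊞ (N⟦(1 : ℤ)⟧))) : ThkOf N (Q.obj P) ∧ ThkOf (Q.obj P) N := by
  obtain ⟨e⟩ := e
  exact ⟨(ThkOf N).prop_of_iso e.symm (ThkOf.biprod_shift N),
    ThkOf.trans (ThkOf.of_iso e) (ThkOf.of_biprod N _)⟩

/-- **Left approximations of the blocks, in the DG category of complexes.** -/
theorem exists_left_blk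
    (hB : ∀ X Y, Blk D ta tb tf X → Blk D ta tb tf Y → ∀ n : ℕ, 0 < n →
      Subsingleton (Ext.{w₂} X Y n)) (G : C)
    (ha : ∀ x, ThkOf ((singleFunctor C 0).obj G) ((singleFunctor C 0).obj (ta x).pt))
    (hb : ∀ x, ThkOf ((singleFunctor C 0).obj G) ((singleFunctor C 0).obj (tb x).pt))
    (hf : ∀ x, ThkOf ((singleFunctor C 0).obj G) ((singleFunctor C 0).obj (tf x).pt))
    {P : CochainComplex (LinFun k (Ob D) C) ℤ} (hP : Tw (Blk D ta tb tf) P)
    (e : Nonempty (Q.obj P ≅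
      ((singleFunctor (LinFun k (Ob D) C) 0).obj ((phi C (Ob.lamData D)).obj G)) ⊞
      (((singleFunctor (LinFun k (Ob D) C) 0).obj
        ((phi C (Ob.lamData D)).obj G))⟦(1 : ℤ)⟧)))
    {X : LinFun k (Ob D) C} (hX : Blk D ta tb tf X) :
    ∃ (Z Y : CochainComplex (LinFun k (Ob D) C) ℤ) (z : (cxDG k (LinFun k (Ob D) C)).Hom Z Y 0),
      DGCat.IsRetract (A := cxDG k (LinFun k (Ob D) C)) 0
        ((CochainComplex.singleFunctor (LinFun k (Ob D) C) 0).obj X) Z ∧
      DGCat.Thick (A := cxDG k (LinFun k (Ob D) C)) P Y ∧ IsClosed z ∧ QIso (prec z P) := by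
  obtain ⟨h1, h2⟩ := thkOf_of_iso_biprod e
  obtain ⟨Z, Y, z, -, -, h⟩ := exists_left_single k hB hP h1 h2 hX
    (lApp_blk D ta tb tf G ha hb hf hX)
  exact ⟨Z, Y, z, h⟩

/-- **Right approximations of the blocks, in the DG category of complexes.** -/
theorem exists_right_blk
    (hB : ∀ X Y, Blk D ta tb tf X → Blk D ta tb tf Y → ∀ n : ℕ, 0 < n →
      Subsingleton (Ext.{w₂} X Y n)) (G : C)
    (ha : ∀ x, ThkOf ((singleFunctor C 0).obj G) ((singleFunctor C 0).obj (ta x).pt))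
    (hb : ∀ x, ThkOf ((singleFunctor C 0).obj G) ((singleFunctor C 0).obj (tb x).pt))
    (hf : ∀ x, ThkOf ((singleFunctor C 0).obj G) ((singleFunctor C 0).obj (tf x).pt))
    {P : CochainComplex (LinFun k (Ob D) C) ℤ} (hP : Tw (Blk D ta tb tf) P)
    (e : Nonempty (Q.obj P ≅
      ((singleFunctor (LinFun k (Ob D) C) 0).obj ((phi C (Ob.lamData D)).obj G)) ⊞
      (((singleFunctor (LinFun k (Ob D) C) 0).obj
        ((phi C (Ob.lamData D)).obj G))⟦(1 : ℤ)⟧)))
    {X : LinFun k (Ob D) C} (hX : Blk D ta tb tf X) :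
    ∃ (Z Y : CochainComplex (LinFun k (Ob D) C) ℤ) (z : (cxDG k (LinFun k (Ob D) C)).Hom Y Z 0),
      DGCat.IsRetract (A := cxDG k (LinFun k (Ob D) C)) 0
        ((CochainComplex.singleFunctor (LinFun k (Ob D) C) 0).obj X) Z ∧
      DGCat.Thick (A := cxDG k (LinFun k (Ob D) C)) P Y ∧ IsClosed z ∧ QIso (postc z P) := by
  obtain ⟨h1, h2⟩ := thkOf_of_iso_biprod e
  obtain ⟨Z, Y, z, -, -, h⟩ := exists_right_single k hB hP h1 h2 hX
    (rApp_blk D ta tb tf G ha hb hf hX)
  exact ⟨Z, Y, z, h⟩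

end fin

end Orl.LF
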