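import Pool.Agent.Work.MP_a6e60d_ag.Sm.InstQ
import Pool.Agent.Work.MP_a6e60d_ag.Fld.Lf
import Pool.Agent.Work.MP_a6e60d_ag.Q.MainF
import Pool.Agent.Work.MP_a6e60d_ag.Q.MainL

/-!
MP_a6e60d_ag: the blocks of the tilting object for the concrete data: order, finiteness,
separability of the algebras of endomorphisms, decomposition of iterated cones.
-/

open CategoryTheory CategoryTheory.Abelian CategoryTheory.Limits Orl.LF Orl.Gal Orl.Q

attribute [-instance] CategoryTheory.catToReflQuiver

attribute [local instance] Abelian.hasFiniteBiproducts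

namespace Orl.Fld.FieldDatum

universe w₂

variable {k F L K : Type} [Field k] [Field F] [Field L] [Field K] [Algebra k F]
    [Algebra k L] [Algebra k K] [Algebra F K] [Algebra L K] [IsScalarTower k F K]
    [IsScalarTower k L K] (D : FieldDatum k F L K)

variable [FiniteDimensional k F] [FiniteDimensional k L] [FiniteDimensional k K]
  [FiniteDimensional F K] [FiniteDimensional L K]

/-- the blocks, in the order of the directed collection -/
noncomputable def blocks (m m' : ℤ) (i : Fin (6 + (5 + 6))) : LinFun k (Ob D.lf) D.qd.Cat :=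
  blkB D.lf (D.tF m) D.tb (D.tF m') id id id i

lemma exists_iso_blocks (m m' : ℤ) (X : LinFun k (Ob D.lf) D.qd.Cat)
    (hX : Blk D.lf (D.tF m) D.tb (D.tF m') X) : ∃ i, Nonempty (X ≅ D.blocks m m' i) :=
  exists_iso_blkB D.lf (D.tF m) D.tb (D.tF m') id id id Function.surjective_id
    Function.surjective_id Function.surjective_id X hX

/-- an iterated cone of single complexes of blocks decomposes into shifts of blocks -/
theorem decomp_blocks (m m' : ℤ) {P : CochainComplex (LinFun k (Ob D.lf) D.qd.Cat) ℤ}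
    (hP : Tw (Blk D.lf (D.tF m) D.tb (D.tF m')) P) :
    Nonempty (Decomp (A := cxDG k (LinFun k (Ob D.lf) D.qd.Cat))
      (fun j => (CochainComplex.singleFunctor _ 0).obj (D.blocks m m' j)) P) :=
  nonempty_decomp_of_tw _ (D.exists_iso_blocks m m') hP

variable [IsGalois F K] [IsGalois L K] [IsGalois k K] [Algebra.IsSeparable k F]
  [Algebra.IsSeparable k L] [HasExt.{w₂} (ModObj k K D.qd.Cat)]
  (T : Tab.{w₂} k (zact k K D.qd.Cat) (fun x => D.spl.M x.1 x.2) D.spl.O)

include T

omit [FiniteDimensional L K] [IsGalois L K] [IsGalois k K] [Algebra.IsSeparable k L]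
  [FiniteDimensional k L] in
theorem isSepAlg_tF [Algebra.IsSeparable k K] (m : ℤ) (i : Fin 6) :
    IsSepAlg k (End (D.tF m i)) := by
  rcases D.end_tF T m i with ⟨_, e⟩ | ⟨_, e⟩
  · exact isSepAlg_of_field e
  · exact isSepAlg_of_field e

omit [FiniteDimensional F K] [FiniteDimensional k F] [IsGalois F K] [IsGalois k K]
  [Algebra.IsSeparable k F] in
theorem isSepAlg_tb [Algebra.IsSeparable k K] (i : Fin 5) : IsSepAlg k (End (D.tb i)) := by
  rcases D.end_tb T i with ⟨_, e⟩ | ⟨_, e⟩
  · exact isSepAlg_of_field e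
  · exact isSepAlg_of_field e

omit [Algebra.IsSeparable k F] [Algebra.IsSeparable k L] [IsGalois k K] in
/-- The blocks are directed. -/
theorem blocks_hom_zero (m m' : ℤ) (i j : Fin (6 + (5 + 6))) (hij : j < i)
    (f : D.blocks m m' i ⟶ D.blocks m m' j) : f = 0 :=
  blkB_hom_zero D.lf (D.tF m) D.tb (D.tF m') id id id (fun _ _ h f => D.hom_tF T m h f)
    (fun _ _ h f => D.hom_tb T h f) (fun _ _ h f => D.hom_tF T m' h f) i j hij f

/-- The spaces of morphisms between the blocks are finite-dimensional. -/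
theorem finite_blocks (m m' : ℤ) (i j : Fin (6 + (5 + 6))) :
    Module.Finite k (D.blocks m m' i ⟶ D.blocks m m' j) :=
  blk_finite D.lf (D.tF m) D.tb (D.tF m') (D.finite_tF T m m) (D.finite_tb T)
    (D.finite_tF T m' m') (fun x y => D.finite_pt_LF T m x y)
    (fun x y => D.finite_pt_FF T m' m x y) (fun x y => D.finite_pt_FL T m' x y) _ _

/-- The algebras of endomorphisms of the blocks are separable. -/
theorem isSepAlg_blocks (m m' : ℤ) (i : Fin (6 + (5 + 6))) :
    IsSepAlg k (End (D.blocks m m' i)) :=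
  blkB_isSepAlg D.lf (D.tF m) D.tb (D.tF m') id id id (D.isSepAlg_tF T m) (D.isSepAlg_tb T)
    (D.isSepAlg_tF T m') i

end Orl.Fld.FieldDatum
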