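import Pool.Agent.Work.MP_a6e60d_ag.Sm.AppTri

/-!
MP_a6e60d_ag: approximations in derived categories from isomorphisms of Ext groups.
-/

open CategoryTheory Limits Pretriangulated ZeroObject ObjectProperty Abelian

attribute [-instance] CategoryTheory.catToReflQuiver

namespace Orl

universe t t' w w' v v' u u'

section

variable {A : Type u} [Category.{v} A] [Abelian A] [HasExt.{w} A] [HasDerivedCategory.{t} A]

open DerivedCategory

omit [HasExt.{w} A] in
lemma derived_hom_eq_zero {n : ℤ} (hn : n < 0) (X Y : A)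
    (f : (singleFunctor A 0).obj X ⟶ ((singleFunctor A 0).obj Y)⟦n⟧) : f = 0 := by
  let e := ((DerivedCategory.singleFunctors A).shiftIso n (-n) 0 (by lia)).app Y
  have h : f ≫ e.hom = 0 := TStructure.t.zero_of_isLE_of_isGE (f ≫ e.hom : (singleFunctor A 0).obj X
    ⟶ (singleFunctor A (-n)).obj Y) 0 (-n) (by lia) inferInstance inferInstance
  rw [← cancel_mono e.hom, h, zero_comp]

lemma mk₀_comp_hom {X Y Z : A} (u : X ⟶ Y) {n : ℕ} (y : Ext.{w} Y Z n) :
    ((Ext.mk₀ u).comp y (zero_add n)).hom = (singleFunctor A 0).map u ≫ y.hom := by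
  rw [Ext.comp_hom, Ext.mk₀_hom, ShiftedHom.mk₀_comp]

lemma comp_mk₀_hom {X Y Z : A} (v : Y ⟶ Z) {n : ℕ} (y : Ext.{w} X Y n) :
    (y.comp (Ext.mk₀ v) (add_zero n)).hom = y.hom ≫ ((singleFunctor A 0).map v)⟦(n : ℤ)⟧' := by
  rw [Ext.comp_hom, Ext.mk₀_hom, ShiftedHom.comp_mk₀]

/-- from Ext groups to the derived category -/
theorem derived_bij_left {X Y : A} (u : X ⟶ Y) (Z : A)
    (h : ∀ n : ℕ, Function.Bijective
      (fun y : Ext.{w} Y Z n => (Ext.mk₀ u).comp y (zero_add n))) (n : ℤ) :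
    Function.Bijective (fun g : (singleFunctor A 0).obj Y ⟶ ((singleFunctor A 0).obj Z)⟦n⟧ =>
      (singleFunctor A 0).map u ≫ g) := by
  obtain ⟨m, rfl⟩ | hn : (∃ m : ℕ, n = m) ∨ n < 0 := by
    rcases Int.lt_or_le n 0 with h | h
    · exact Or.inr h
    · exact Or.inl ⟨n.toNat, (Int.toNat_of_nonneg h).symm⟩
  · constructor
    · intro g g' hg
      obtain ⟨x, rfl⟩ := (Ext.homEquiv : Ext.{w} Y Z m ≃ _).surjective g
      obtain ⟨x', rfl⟩ := (Ext.homEquiv : Ext.{w} Y Z m ≃ _).surjective g'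
      have : x = x' := (h m).1 (Ext.homEquiv.injective (by
        change ((Ext.mk₀ u).comp x (zero_add m)).hom = ((Ext.mk₀ u).comp x' (zero_add m)).hom
        rw [mk₀_comp_hom, mk₀_comp_hom]
        exact hg))
      rw [this]
    · intro g
      obtain ⟨x, rfl⟩ := (Ext.homEquiv : Ext.{w} X Z m ≃ _).surjective g
      obtain ⟨y, hy⟩ := (h m).2 x
      refine ⟨y.hom, ?_⟩
      rw [← hy]
      exact (mk₀_comp_hom u y).symm
  · exact ⟨fun g g' _ => (derived_hom_eq_zero hn _ _ g).trans (derived_hom_eq_zero hn _ _ g').symm,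
      fun g => ⟨0, (derived_hom_eq_zero hn _ _ _).trans (derived_hom_eq_zero hn _ _ g).symm⟩⟩

/-- from Ext groups to the derived category -/
theorem derived_bij_right {X Y : A} (v : X ⟶ Y) (Z : A)
    (h : ∀ n : ℕ, Function.Bijective
      (fun y : Ext.{w} Z X n => y.comp (Ext.mk₀ v) (add_zero n))) (n : ℤ) :
    Function.Bijective (fun g : (singleFunctor A 0).obj Z ⟶ ((singleFunctor A 0).obj X)⟦n⟧ =>
      g ≫ ((singleFunctor A 0).map v)⟦n⟧') := by
  obtain ⟨m, rfl⟩ | hn : (∃ m : ℕ, n = m) ∨ n < 0 := by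
    rcases Int.lt_or_le n 0 with h | h
    · exact Or.inr h
    · exact Or.inl ⟨n.toNat, (Int.toNat_of_nonneg h).symm⟩
  · constructor
    · intro g g' hg
      obtain ⟨x, rfl⟩ := (Ext.homEquiv : Ext.{w} Z X m ≃ _).surjective g
      obtain ⟨x', rfl⟩ := (Ext.homEquiv : Ext.{w} Z X m ≃ _).surjective g'
      have : x = x' := (h m).1 (Ext.homEquiv.injective (by
        change (x.comp (Ext.mk₀ v) (add_zero m)).hom = (x'.comp (Ext.mk₀ v) (add_zero m)).hom
        rw [comp_mk₀_hom, comp_mk₀_hom]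
        exact hg))
      rw [this]
    · intro g
      obtain ⟨x, rfl⟩ := (Ext.homEquiv : Ext.{w} Z Y m ≃ _).surjective g
      obtain ⟨y, hy⟩ := (h m).2 x
      refine ⟨y.hom, ?_⟩
      rw [← hy]
      exact (comp_mk₀_hom v y).symm
  · exact ⟨fun g g' _ => (derived_hom_eq_zero hn _ _ g).trans (derived_hom_eq_zero hn _ _ g').symm,
      fun g => ⟨0, (derived_hom_eq_zero hn _ _ _).trans (derived_hom_eq_zero hn _ _ g).symm⟩⟩

end

section

variable {C : Type u'} [Category.{v'} C] [Abelian C] [HasExt.{w'} C] [HasDerivedCategory.{t'} C]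
  {A : Type u} [Category.{v} A] [Abelian A] [HasExt.{w} A] [HasDerivedCategory.{t} A]
  (Φ : C ⥤ A) [Φ.Additive] [PreservesFiniteLimits Φ] [PreservesFiniteColimits Φ]

open DerivedCategory

omit [HasExt.{w'} C] [HasExt.{w} A] in
theorem ThkOf.map_single {G Y : C} (h : ThkOf ((singleFunctor C 0).obj G) ((singleFunctor C 0).obj Y)) :
    ThkOf ((singleFunctor A 0).obj (Φ.obj G)) ((singleFunctor A 0).obj (Φ.obj Y)) := by
  have h1 := ThkOf.map Φ.mapDerivedCategory h
  have e : ∀ X : C, Φ.mapDerivedCategory.obj ((singleFunctor C 0).obj X) ≅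
    (singleFunctor A 0).obj (Φ.obj X) := fun X => (Φ.mapDerivedCategorySingleFunctor 0).app X
  exact (ThkOf _).prop_of_iso (e Y) (ThkOf.trans (ThkOf.of_iso (e G).symm) h1)

/-- **Left approximations from Ext isomorphisms.** -/
theorem lApp_of_ext {X : A} {G Y : C} (u : X ⟶ Φ.obj Y)
    (hY : ThkOf ((singleFunctor C 0).obj G) ((singleFunctor C 0).obj Y))
    (hΦ : ∀ n : ℕ, Function.Bijective
      (fun x : Ext.{w'} Y G n => (x.mapExactFunctor Φ : Ext.{w} _ _ n)))
    (hu : ∀ n : ℕ, Function.Bijective (fun x : Ext.{w'} Y G n =>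
      ((Ext.mk₀ u).comp (x.mapExactFunctor Φ : Ext.{w} _ _ n) (zero_add n) : Ext.{w} _ _ n))) :
    LApp ((singleFunctor A 0).obj (Φ.obj G)) ((singleFunctor A 0).obj X) := by
  refine lApp_of_bij ((singleFunctor A 0).map u) (ThkOf.map_single Φ hY)
    (derived_bij_left.{t, w} u (Φ.obj G) fun n => ?_)
  exact (Function.Bijective.of_comp_iff (fun y : Ext.{w} (Φ.obj Y) (Φ.obj G) n =>
    (Ext.mk₀ u).comp y (zero_add n)) (hΦ n)).1 (hu n)

/-- **Right approximations from Ext isomorphisms.** -/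
theorem rApp_of_ext {X : A} {G Y : C} (v : Φ.obj Y ⟶ X)
    (hY : ThkOf ((singleFunctor C 0).obj G) ((singleFunctor C 0).obj Y))
    (hΦ : ∀ n : ℕ, Function.Bijective
      (fun x : Ext.{w'} G Y n => (x.mapExactFunctor Φ : Ext.{w} _ _ n)))
    (hv : ∀ n : ℕ, Function.Bijective (fun x : Ext.{w'} G Y n =>
      ((x.mapExactFunctor Φ : Ext.{w} _ _ n).comp (Ext.mk₀ v) (add_zero n) : Ext.{w} _ _ n))) :
    RApp ((singleFunctor A 0).obj (Φ.obj G)) ((singleFunctor A 0).obj X) := by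
  refine rApp_of_bij ((singleFunctor A 0).map v) (ThkOf.map_single Φ hY)
    (derived_bij_right.{t, w} v (Φ.obj G) fun n => ?_)
  exact (Function.Bijective.of_comp_iff (fun y : Ext.{w} (Φ.obj G) (Φ.obj Y) n =>
    y.comp (Ext.mk₀ v) (add_zero n)) (hΦ n)).1 (hv n)

end

end Orl
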