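import Pool.Agent.Work.MP_a6e60d_ag.Sm.Approx
import Pool.Agent.Work.MP_a6e60d_ag.Sm.AppExt
import Pool.Agent.Work.MP_a6e60d_ag.LF.Tw
import Pool.Agent.Work.MP_a6e60d_ag.LF.Psi
import Pool.Agent.Work.MP_a6e60d_ag.LF.ExtComp
import Pool.Agent.Work.MP_a6e60d_ag.LF.CoRes

/-!
MP_a6e60d_ag: left and right approximations of the blocks.
-/

open CategoryTheory Limits Abelian Pretriangulated

attribute [-instance] CategoryTheory.catToReflQuiver

namespace Orl.LF

open Orl.Gal DerivedCategory

universe t t₁ t₂ w w₀ w₁ w₂ w₃ v v₁ v' u u₁ u'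

attribute [local instance] Abelian.hasFiniteBiproducts

section tw

variable {A : Type 1} [Category.{0} A] [Abelian A] [HasExt.{w} A] [HasDerivedCategory.{t} A]

/-- The iterated cones of single complexes of objects without higher extensions. -/
theorem repClass_tw {B : ObjectProperty A}
    (hB : ∀ X Y, B X → B Y → ∀ n : ℕ, 0 < n → Subsingleton (Ext.{w} X Y n)) :
    RepClass.{t} (Tw B) where
  shift K n h := Tw.shift K n h
  cone f h h' := Tw.cone f h h'
  bij K L hK hL := tw_bijective hB K L hK hL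

variable {k : Type w₀} [CommRing k] [Linear k A]

variable (k) in
/-- left approximations of the single complexes -/
theorem exists_left_single {B : ObjectProperty A}
    (hB : ∀ X Y, B X → B Y → ∀ n : ℕ, 0 < n → Subsingleton (Ext.{w} X Y n))
    {P : CochainComplex A ℤ} (hP : Tw B P) {q : DerivedCategory A} (h1 : ThkOf q (Q.obj P))
    (h2 : ThkOf (Q.obj P) q) {X : A} (hX : B X) (h : LApp q ((singleFunctor A 0).obj X)) :
    ∃ (Z Y : CochainComplex A ℤ) (z : (cxDG k A).Hom Z Y 0), Tw B Z ∧ Tw B Y ∧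
      DGCat.IsRetract (A := cxDG k A) 0 ((CochainComplex.singleFunctor A 0).obj X) Z ∧
      DGCat.Thick (A := cxDG k A) P Y ∧ IsClosed z ∧ QIso (prec z P) :=
  (repClass_tw.{t} hB).exists_left hP (Tw.single 0 X hX)
    (ObjectProperty.le_retractClosure _ _ (LApp.trans h1 h2 h))

variable (k) in
/-- right approximations of the single complexes -/
theorem exists_right_single {B : ObjectProperty A}
    (hB : ∀ X Y, B X → B Y → ∀ n : ℕ, 0 < n → Subsingleton (Ext.{w} X Y n))
    {P : CochainComplex A ℤ} (hP : Tw B P) {q : DerivedCategory A} (h1 : ThkOf q (Q.obj P))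
    (h2 : ThkOf (Q.obj P) q) {X : A} (hX : B X) (h : RApp q ((singleFunctor A 0).obj X)) :
    ∃ (Z Y : CochainComplex A ℤ) (z : (cxDG k A).Hom Y Z 0), Tw B Z ∧ Tw B Y ∧
      DGCat.IsRetract (A := cxDG k A) 0 ((CochainComplex.singleFunctor A 0).obj X) Z ∧
      DGCat.Thick (A := cxDG k A) P Y ∧ IsClosed z ∧ QIso (postc z P) :=
  (repClass_tw.{t} hB).exists_right hP (Tw.single 0 X hX)
    (ObjectProperty.le_retractClosure _ _ (RApp.trans h1 h2 h))

end tw

section abs

variable {M : Type u₁} [Category.{v₁} M] [Abelian M]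
  {A : Type u} [Category.{v} A] [Abelian A] [HasExt.{w₂} A] [HasDerivedCategory.{t₂} A]
  {C : Type u'} [Category.{v'} C] [Abelian C] [HasExt.{w₃} C] [HasDerivedCategory.{t₁} C]

/-- the left approximation of an induced object -/
theorem lApp_of_adj (I : M ⥤ A) (R : A ⥤ M) (adj₁ : I ⊣ R) [I.Additive]
    [PreservesFiniteLimits I] [PreservesFiniteColimits I] [R.Additive] [PreservesFiniteLimits R]
    [PreservesFiniteColimits R] (Ψ : A ⥤ C) (Φ : C ⥤ A) (adj : Ψ ⊣ Φ) [Φ.Additive]
    [PreservesFiniteLimits Φ] [PreservesFiniteColimits Φ]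
    [Ψ.Additive] [PreservesFiniteLimits (I ⋙ Ψ)] [PreservesFiniteColimits (I ⋙ Ψ)] (m : M) (G : C)
    (hΦ : ∀ n : ℕ, Function.Bijective (fun x : Ext.{w₃} (Ψ.obj (I.obj m)) G n =>
      (x.mapExactFunctor Φ : Ext.{w₂} _ _ n)))
    (hY : ThkOf ((singleFunctor C 0).obj G) ((singleFunctor C 0).obj (Ψ.obj (I.obj m)))) :
    LApp ((singleFunctor A 0).obj (Φ.obj G)) ((singleFunctor A 0).obj (I.obj m)) := by
  let := HasExt.standard M
  exact lApp_of_ext.{t₂, t₁, w₂, w₃} Φ (adj.unit.app (I.obj m)) hY hΦ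
    fun n => ext_unit_bijective I R adj₁ Ψ Φ adj m G n

/-- the right approximation of a coinduced object -/
theorem rApp_of_adj (R : A ⥤ M) (J : M ⥤ A) (adj₁ : R ⊣ J) [J.Additive]
    [PreservesFiniteLimits J] [PreservesFiniteColimits J] [R.Additive] [PreservesFiniteLimits R]
    [PreservesFiniteColimits R] (Φ : C ⥤ A) (Ψ : A ⥤ C) (adj : Φ ⊣ Ψ) [Φ.Additive]
    [PreservesFiniteLimits Φ] [PreservesFiniteColimits Φ]
    [Ψ.Additive] [PreservesFiniteLimits (J ⋙ Ψ)] [PreservesFiniteColimits (J ⋙ Ψ)] (m : M) (G : C)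
    (hΦ : ∀ n : ℕ, Function.Bijective (fun x : Ext.{w₃} G (Ψ.obj (J.obj m)) n =>
      (x.mapExactFunctor Φ : Ext.{w₂} _ _ n)))
    (hY : ThkOf ((singleFunctor C 0).obj G) ((singleFunctor C 0).obj (Ψ.obj (J.obj m)))) :
    RApp ((singleFunctor A 0).obj (Φ.obj G)) ((singleFunctor A 0).obj (J.obj m)) := by
  let := HasExt.standard M
  exact rApp_of_ext.{t₂, t₁, w₂, w₃} Φ (adj.counit.app (J.obj m)) hY hΦ
    fun n => ext_counit_bijective R J adj₁ Φ Ψ adj m G n

end abs

section tens

variable {k : Type*} [Field k] {E : Type*} [Field E] [Algebra k E]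
variable {C : Type u'} [Category.{v'} C] [Abelian C] [Linear k C]

lemma thk_tens {S : ObjectProperty C} (hS : Orl.Q.Thk S) (M : ModObj k E C) (hM : S M.pt)
    (V : Type w) [AddCommGroup V] [Module E V] : S (tens M V) :=
  hS.biproduct (fun _ : Fin (Module.finrank E V) => M.pt) (fun _ => hM)

end tens

section lf

variable {k : Type w₀} [Field k] {Q : Type u} [Category.{v} Q] [Preadditive Q] [Linear k Q]
variable {C : Type u'} [Category.{v'} C] [Abelian C] [Linear k C] [HasExt.{w₁} C]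
  [HasExt.{w₂} (LinFun k Q C)] [HasDerivedCategory.{t₁} C] [HasDerivedCategory.{t₂} (LinFun k Q C)]
variable (Λ : LamData.{w} k Q)
variable {E : Type w₀} [Field E] [Algebra k E] [FiniteDimensional k E]
  (i : SingleObj E ⥤ Q) [i.Additive] [i.Linear k]

omit [FiniteDimensional k E] in
/-- **Left approximations of the blocks.** -/
theorem lApp_ind [∀ y, Module.Finite E (HomL i y)] (M : ModObj k E C) (G : C)
    (hΦ : ∀ (c : C) (n : ℕ), Function.Bijective (fun x : Ext.{w₁} c G n =>
      (x.mapExactFunctor (phi C Λ) : Ext.{w₂} _ _ n)))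
    (hM : ThkOf ((singleFunctor C 0).obj G) ((singleFunctor C 0).obj M.pt)) :
    LApp ((singleFunctor (LinFun k Q C) 0).obj ((phi C Λ).obj G))
      ((singleFunctor (LinFun k Q C) 0).obj ((ind C i).obj M)) := by
  have hS := Orl.Q.Thk.ofDerived (ThkOf ((singleFunctor C 0).obj G))
  refine lApp_of_adj (ind C i) (res C i) (indAdj C i) (psi C Λ) (phi C Λ) (psiAdj C Λ) M G
    (hΦ _) ?_
  exact hS.iso ((indPsi C Λ i).symm.app M) (thk_tens hS M hM (psiW Λ i))

omit [FiniteDimensional k E] in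
/-- **Right approximations of the coinduced objects.** -/
theorem rApp_coind [∀ y, Module.Finite E (HomR i y)] (ΨR : LinFun k Q C ⥤ C)
    (adj : phi C Λ ⊣ ΨR) [ΨR.Additive] [PreservesFiniteLimits (coind C i ⋙ ΨR)]
    [PreservesFiniteColimits (coind C i ⋙ ΨR)] {W : Type v₁} [AddCommGroup W] [Module E W]
    [Module.Finite E W] (e : coind C i ⋙ ΨR ≅ tensL k E C W) (M : ModObj k E C) (G : C)
    (hΦ : ∀ (c : C) (n : ℕ), Function.Bijective (fun x : Ext.{w₁} G c n =>
      (x.mapExactFunctor (phi C Λ) : Ext.{w₂} _ _ n)))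
    (hM : ThkOf ((singleFunctor C 0).obj G) ((singleFunctor C 0).obj M.pt)) :
    RApp ((singleFunctor (LinFun k Q C) 0).obj ((phi C Λ).obj G))
      ((singleFunctor (LinFun k Q C) 0).obj ((coind C i).obj M)) := by
  have hS := Orl.Q.Thk.ofDerived (ThkOf ((singleFunctor C 0).obj G))
  refine rApp_of_adj (res C i) (coind C i) (coindAdj C i) (phi C Λ) ΨR adj M G (hΦ _) ?_
  exact hS.iso (e.symm.app M) (thk_tens hS M hM W)

end lf

section dat

variable {k F L : Type w₀} [Field k] [Field F] [Field L] [Algebra k F] [Algebra k L]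
  (D : Dat k F L)
variable {C : Type u'} [Category.{v'} C] [Abelian C] [Linear k C]
  [HasDerivedCategory.{t₁} C] [HasDerivedCategory.{t₂} (LinFun k (Ob D) C)]

/-- From coinduced objects to all objects. -/
theorem rApp_of_coind (G : C) (p : DerivedCategory (LinFun k (Ob D) C))
    (ha : ∀ M : ModObj k F C, ThkOf ((singleFunctor C 0).obj G) ((singleFunctor C 0).obj M.pt) →
      RApp p ((singleFunctor (LinFun k (Ob D) C) 0).obj ((coind C (Ob.ia D)).obj M)))
    (hb : ∀ M : ModObj k L C, ThkOf ((singleFunctor C 0).obj G) ((singleFunctor C 0).obj M.pt) →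
      RApp p ((singleFunctor (LinFun k (Ob D) C) 0).obj ((coind C (Ob.ib D)).obj M)))
    (hf : ∀ M : ModObj k F C, ThkOf ((singleFunctor C 0).obj G) ((singleFunctor C 0).obj M.pt) →
      RApp p ((singleFunctor (LinFun k (Ob D) C) 0).obj ((coind C (Ob.iff D)).obj M)))
    (N : LinFun k (Ob D) C)
    (hN : ∀ x, ThkOf ((singleFunctor C 0).obj G) ((singleFunctor C 0).obj (N.obj.obj x))) :
    RApp p ((singleFunctor (LinFun k (Ob D) C) 0).obj N) := by
  refine coind_gen D ((ThkOf ((singleFunctor C 0).obj G)).inverseImage (singleFunctor C 0))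
    (Orl.Q.Thk.ofDerived _) ((RApp p).inverseImage (singleFunctor (LinFun k (Ob D) C) 0)) ?_ ?_ ?_
    ha hb hf N hN
  · infer_instance
  · intro S hS h2 h3
    exact (RApp p).ext_of_isTriangulatedClosed₁ _ hS.singleTriangle_distinguished h2 h3
  · intro S hS h1 h3
    exact (RApp p).ext_of_isTriangulatedClosed₂ _ hS.singleTriangle_distinguished h1 h3

end dat

end Orl.LF
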