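import Mathlib

/-!
# Approximations by the objects of a thick subcategory of a triangulated category
-/

open CategoryTheory Limits Pretriangulated ZeroObject ObjectProperty

attribute [-instance] CategoryTheory.catToReflQuiver

namespace Orl

universe v u v' u'

section

variable {T : Type u} [Category.{v} T] [Preadditive T] [HasShift T ℤ]

/-- all morphisms from `X` to the shifts of `Y` are zero -/
def AOrth (X Y : T) : Prop := ∀ (n : ℤ) (f : X ⟶ Y⟦n⟧), f = 0

lemma AOrth.retract_left {X X' Y : T} (r : Retract X X') (h : AOrth X' Y) : AOrth X Y :=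
  fun n f => by
    have h1 := h n (r.r ≫ f)
    calc f = r.i ≫ r.r ≫ f := by rw [← Category.assoc, r.retract, Category.id_comp]
      _ = 0 := by rw [h1, comp_zero]

lemma AOrth.retract_right [∀ n : ℤ, (shiftFunctor T n).Additive] {X Y Y' : T} (r : Retract Y Y')
    (h : AOrth X Y') : AOrth X Y :=
  fun n f => by
    have h1 := h n (f ≫ r.i⟦n⟧')
    calc f = (f ≫ r.i⟦n⟧') ≫ r.r⟦n⟧' := by
          rw [Category.assoc, ← Functor.map_comp, r.retract, CategoryTheory.Functor.map_id,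
            Category.comp_id]
      _ = 0 := by rw [h1, zero_comp]

lemma AOrth.of_iso_left {X X' Y : T} (e : X ≅ X') (h : AOrth X' Y) : AOrth X Y :=
  h.retract_left ⟨e.hom, e.inv, e.hom_inv_id⟩

lemma AOrth.of_iso_right [∀ n : ℤ, (shiftFunctor T n).Additive] {X Y Y' : T} (e : Y ≅ Y')
    (h : AOrth X Y') : AOrth X Y :=
  h.retract_right ⟨e.hom, e.inv, e.hom_inv_id⟩

lemma AOrth.shift_right {X Y : T} (h : AOrth X Y) (a : ℤ) : AOrth X (Y⟦a⟧) := fun n f => by
  have h1 := h (a + n) (f ≫ ((shiftFunctorAdd' T a n (a + n) rfl).app Y).inv)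
  rw [← cancel_mono (((shiftFunctorAdd' T a n (a + n) rfl).app Y).inv), h1, zero_comp]

lemma AOrth.shift_left [∀ n : ℤ, (shiftFunctor T n).Additive] {X Y : T} (h : AOrth X Y) (a : ℤ) : AOrth (X⟦a⟧) Y := fun n f => by
  apply (shiftFunctor T (-a)).map_injective
  rw [Functor.map_zero, ← cancel_epi ((shiftShiftNeg X a).inv),
    ← cancel_mono (((shiftFunctorAdd' T n (-a) (n + -a) rfl).app Y).inv), Category.assoc,
    h _ (_ ≫ _ ≫ _), comp_zero, zero_comp]

end

variable {T : Type u} [Category.{v} T] [HasZeroObject T] [Preadditive T] [HasShift T ℤ]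
  [∀ n : ℤ, (shiftFunctor T n).Additive] [Pretriangulated T]

/-- the objects `X` with no nonzero morphisms to the shifts of `Y` -/
def LOrth (Y : T) : ObjectProperty T := fun X => AOrth X Y

/-- the objects `Y` with no nonzero morphisms from `X` to their shifts -/
def ROrth (X : T) : ObjectProperty T := fun Y => AOrth X Y

instance (Y : T) : (LOrth Y).IsStableUnderRetracts := ⟨fun r h => AOrth.retract_left r h⟩

instance (X : T) : (ROrth X).IsStableUnderRetracts := ⟨fun r h => AOrth.retract_right r h⟩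

instance (Y : T) : (LOrth Y).IsTriangulated where
  exists_zero := ⟨0, isZero_zero T, fun n f => (isZero_zero T).eq_of_src _ _⟩
  isStableUnderShiftBy a := ⟨fun X hX => AOrth.shift_left hX a⟩
  toIsTriangulatedClosed₂ := .mk' (fun Δ hΔ h1 h3 n f => by
    obtain ⟨g, rfl⟩ := Triangle.yoneda_exact₂ Δ hΔ f (h1 n _)
    rw [h3 n g, comp_zero])

instance (X : T) : (ROrth X).IsTriangulated where
  exists_zero := ⟨0, isZero_zero T, fun n f =>
    ((shiftFunctor T n).map_isZero (isZero_zero T)).eq_of_tgt _ _⟩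
  isStableUnderShiftBy a := ⟨fun Y hY => AOrth.shift_right hY a⟩
  toIsTriangulatedClosed₂ := .mk' (fun Δ hΔ h1 h3 n f => by
    have hΔ' := Triangle.shift_distinguished _ hΔ n
    obtain ⟨g, hg⟩ := Triangle.coyoneda_exact₂ _ hΔ' f (by
      change f ≫ (n.negOnePow • Δ.mor₂⟦n⟧') = 0
      exact h3 n _)
    have h0 : g = 0 := h1 n g
    rw [hg, h0]
    exact zero_comp)

/-- the thick subcategory generated by `p` -/
abbrev ThkOf (p : T) : ObjectProperty T := (ObjectProperty.singleton p).triangEnvelope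

lemma ThkOf.self (p : T) : ThkOf p p := le_triangEnvelope _ _ (by simp)

instance (p : T) : (ObjectProperty.singleton p).Nonempty := ⟨p, by simp⟩

lemma ThkOf.le_iff {p : T} {Q : ObjectProperty T} [Q.IsStableUnderRetracts] [Q.IsTriangulated] :
    ThkOf p ≤ Q ↔ Q p := by
  rw [triangEnvelope_le_iff, singleton_le_iff]

variable [IsTriangulated T]

omit [IsTriangulated T] in
lemma AOrth.of_thk_right {p W M : T} (h : AOrth W p) (hM : ThkOf p M) : AOrth W M :=
  (ThkOf.le_iff (Q := ROrth W)).2 h _ hM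

omit [IsTriangulated T] in
lemma AOrth.of_thk_left {p W M : T} (h : AOrth p W) (hM : ThkOf p M) : AOrth M W :=
  (ThkOf.le_iff (Q := LOrth W)).2 h _ hM

omit [IsTriangulated T] in
lemma extensionProduct_swap {P Q : ObjectProperty T}
    (h : ∀ (Y Z : T), P Y → Q Z → ∀ f : Z ⟶ Y⟦(1 : ℤ)⟧, f = 0) :
    extensionProduct P Q ≤ extensionProduct Q P := by
  rintro X ⟨Y, Z, f, g, δ, hT, hY, hZ⟩
  obtain ⟨e, -⟩ := exists_iso_binaryBiproduct_of_distTriang _ hT (h Y Z hY hZ δ)
  have e' : Z ⊞ Y ≅ X := (biprod.braiding Z Y) ≪≫ e.symm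
  exact (extensionProduct Q P).prop_of_iso e'
    ⟨Z, Y, _, _, _, binaryBiproductTriangle_distinguished Z Y, hZ, hY⟩

/-- the objects `N` with a triangle `W ⟶ N ⟶ N' ⟶ W⟦1⟧`, `N'` in the thick subcategory of `p` and
`W` left orthogonal to `p` -/
def LApp (p : T) : ObjectProperty T := extensionProduct (LOrth p) (ThkOf p)

/-- the objects `N` with a triangle `N' ⟶ N ⟶ W ⟶ N'⟦1⟧`, `N'` in the thick subcategory of `p` and
`W` right orthogonal to `p` -/
def RApp (p : T) : ObjectProperty T := extensionProduct (ThkOf p) (ROrth p)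

lemma ext_le_of_swap {L K : ObjectProperty T} [L.IsTriangulated] [L.IsClosedUnderIsomorphisms]
    [K.IsTriangulated] [K.IsClosedUnderIsomorphisms]
    (h : ∀ (Y Z : T), K Y → L Z → ∀ f : Z ⟶ Y⟦(1 : ℤ)⟧, f = 0) :
    extensionProduct (extensionProduct L K) (extensionProduct L K) ≤ extensionProduct L K := by
  have hL : extensionProduct L L ≤ L :=
    extensionProduct_le_of_isTriangulatedClosed₂ le_rfl le_rfl
  have hK : extensionProduct K K ≤ K :=
    extensionProduct_le_of_isTriangulatedClosed₂ le_rfl le_rfl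
  calc extensionProduct (extensionProduct L K) (extensionProduct L K)
      = extensionProduct L (extensionProduct (extensionProduct K L) K) := by
        rw [extensionProduct_assoc, extensionProduct_assoc]
    _ ≤ extensionProduct L (extensionProduct (extensionProduct L K) K) :=
        monotone_extensionProduct_right _
          (monotone_extensionProduct_left _ (extensionProduct_swap h))
    _ = extensionProduct (extensionProduct L L) (extensionProduct K K) := by
        rw [extensionProduct_assoc, extensionProduct_assoc]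
    _ ≤ extensionProduct L K :=
        (monotone_extensionProduct_left _ hL).trans (monotone_extensionProduct_right _ hK)

omit [IsTriangulated T] in
instance (p : T) : (LApp p).IsClosedUnderIsomorphisms :=
  inferInstanceAs (extensionProduct _ _).IsClosedUnderIsomorphisms

omit [IsTriangulated T] in
instance (p : T) : (RApp p).IsClosedUnderIsomorphisms :=
  inferInstanceAs (extensionProduct _ _).IsClosedUnderIsomorphisms

omit [IsTriangulated T] in
lemma le_lApp (p : T) : ThkOf p ≤ LApp p := le_extensionProduct_right _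

omit [IsTriangulated T] in
lemma le_rApp (p : T) : ThkOf p ≤ RApp p := le_extensionProduct_left _

omit [IsTriangulated T] in
lemma isTriangulated_of_ext {P : ObjectProperty T} [P.IsClosedUnderIsomorphisms]
    [P.IsStableUnderShift ℤ] (h0 : P.ContainsZero) (h : extensionProduct P P ≤ P) :
    P.IsTriangulated where
  toContainsZero := h0
  toIsTriangulatedClosed₂ := .mk' fun Δ hΔ h1 h3 =>
    h _ ⟨Δ.obj₁, Δ.obj₃, Δ.mor₁, Δ.mor₂, Δ.mor₃, hΔ, h1, h3⟩

omit [IsTriangulated T] [HasZeroObject T] [∀ n : ℤ, (shiftFunctor T n).Additive]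
  [Pretriangulated T] [Preadditive T] [HasShift T ℤ] in
lemma containsZero_mono {P Q : ObjectProperty T} [h : P.ContainsZero] (hPQ : P ≤ Q) :
    Q.ContainsZero := by
  obtain ⟨Z, hZ, hP⟩ := P.exists_prop_of_containsZero
  exact ⟨Z, hZ, hPQ _ hP⟩

instance (p : T) : (LApp p).IsTriangulated := by
  have : (LApp p).IsStableUnderShift ℤ :=
    inferInstanceAs ((extensionProduct _ _).IsStableUnderShift ℤ)
  refine isTriangulated_of_ext (containsZero_mono (le_lApp p)) ?_
  exact ext_le_of_swap (L := LOrth p) (K := ThkOf p) fun Y Z hY hZ f =>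
    AOrth.of_thk_right (show AOrth Z p from hZ) hY 1 f

instance (p : T) : (RApp p).IsTriangulated := by
  have : (RApp p).IsStableUnderShift ℤ :=
    inferInstanceAs ((extensionProduct _ _).IsStableUnderShift ℤ)
  refine isTriangulated_of_ext (containsZero_mono (le_rApp p)) ?_
  exact ext_le_of_swap (L := ThkOf p) (K := ROrth p) fun Y Z hY hZ f =>
    AOrth.of_thk_left (show AOrth p Y from hY) hZ 1 f

omit [IsTriangulated T] in
theorem lApp_of_bij {p N N' : T} (u : N ⟶ N') (hN' : ThkOf p N')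
    (h : ∀ n : ℤ, Function.Bijective (fun g : N' ⟶ p⟦n⟧ => u ≫ g)) : LApp p N := by
  obtain ⟨W, w, δ, hT⟩ := distinguished_cocone_triangle₁ u
  refine ⟨W, N', w, u, δ, hT, fun n f => ?_, hN'⟩
  have h1 : u ≫ δ = 0 := comp_distTriang_mor_zero₂₃ _ hT
  have h2 : w ≫ u = 0 := comp_distTriang_mor_zero₁₂ _ hT
  have e1 : δ ≫ f⟦(1 : ℤ)⟧' = 0 := by
    have h3 : (δ ≫ f⟦(1 : ℤ)⟧') ≫ ((shiftFunctorAdd' T n 1 (n + 1) rfl).app p).inv = 0 := by
      refine (h (n + 1)).1 ?_
      change u ≫ _ = u ≫ 0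
      rw [← Category.assoc, ← Category.assoc, h1, zero_comp, zero_comp, comp_zero]
    rw [← cancel_mono ((shiftFunctorAdd' T n 1 (n + 1) rfl).app p).inv, h3, zero_comp]
  obtain ⟨g, hg⟩ : ∃ g : N⟦(1 : ℤ)⟧ ⟶ p⟦n⟧⟦(1 : ℤ)⟧, f⟦(1 : ℤ)⟧' = (-w⟦(1 : ℤ)⟧') ≫ g :=
    Triangle.yoneda_exact₃ _ (rot_of_distTriang _ hT) (f⟦(1 : ℤ)⟧') e1
  obtain ⟨g', rfl⟩ := (shiftFunctor T (1 : ℤ)).map_surjective g
  obtain ⟨g'', hg''⟩ := (h n).2 g'
  have hg'' : u ≫ g'' = g' := hg''
  apply (shiftFunctor T (1 : ℤ)).map_injective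
  rw [hg, Preadditive.neg_comp, ← Functor.map_comp, ← hg'', ← Category.assoc, h2, zero_comp,
    Functor.map_zero, neg_zero]

omit [IsTriangulated T] in
lemma exists_shift_dist {X Y Z : T} {f : X ⟶ Y} {g : Y ⟶ Z} {h : Z ⟶ X⟦(1 : ℤ)⟧}
    (hT : Triangle.mk f g h ∈ distTriang T) (n : ℤ) :
    ∃ h' : Z⟦n⟧ ⟶ X⟦n⟧⟦(1 : ℤ)⟧, Triangle.mk (f⟦n⟧') (g⟦n⟧') h' ∈ distTriang T := by
  have hT' := Triangle.shift_distinguished _ hT n
  let e : Y⟦n⟧ ≅ Y⟦n⟧ := ⟨n.negOnePow • 𝟙 _, n.negOnePow • 𝟙 _, by simp [smul_smul],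
    by simp [smul_smul]⟩
  refine ⟨n.negOnePow • (h⟦n⟧' ≫ (shiftFunctorComm T 1 n).hom.app X),
    isomorphic_distinguished _ hT' _ (Triangle.isoMk _ _ (Iso.refl _) e (Iso.refl _) ?_ ?_ ?_)⟩
  · change f⟦n⟧' ≫ (n.negOnePow • 𝟙 _) = 𝟙 _ ≫ (n.negOnePow • f⟦n⟧')
    simp
  · change g⟦n⟧' ≫ 𝟙 _ = (n.negOnePow • 𝟙 _) ≫ (n.negOnePow • g⟦n⟧')
    simp [smul_smul]
  · change (n.negOnePow • (h⟦n⟧' ≫ (shiftFunctorComm T 1 n).hom.app X)) ≫ (𝟙 _)⟦(1 : ℤ)⟧' =
      𝟙 _ ≫ (n.negOnePow • (h⟦n⟧' ≫ (shiftFunctorComm T 1 n).hom.app X))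
    simp

omit [IsTriangulated T] in
theorem rApp_of_bij {p N N' : T} (v : N' ⟶ N) (hN' : ThkOf p N')
    (h : ∀ n : ℤ, Function.Bijective (fun g : p ⟶ N'⟦n⟧ => g ≫ v⟦n⟧')) : RApp p N := by
  obtain ⟨W, w, δ, hT⟩ := distinguished_cocone_triangle v
  refine ⟨N', W, v, w, δ, hT, hN', fun n f => ?_⟩
  obtain ⟨δ', hT'⟩ := exists_shift_dist hT n
  have h1 : v ≫ w = 0 := comp_distTriang_mor_zero₁₂ _ hT
  have hx : (f ≫ δ') ≫ v⟦n⟧'⟦(1 : ℤ)⟧' = 0 := by
    have h2 : δ' ≫ v⟦n⟧'⟦(1 : ℤ)⟧' = 0 := comp_distTriang_mor_zero₃₁ _ hT'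
    rw [Category.assoc, h2, comp_zero]
  have hx0 : f ≫ δ' = 0 := by
    have h3 : (f ≫ δ') ≫ ((shiftFunctorAdd' T n 1 (n + 1) rfl).app N').inv = 0 := by
      refine (h (n + 1)).1 ?_
      have h4 := (shiftFunctorAdd' T n 1 (n + 1) rfl).inv.naturality v
      change ((f ≫ δ') ≫ (shiftFunctorAdd' T n 1 (n + 1) rfl).inv.app N') ≫ v⟦n + 1⟧' =
        0 ≫ v⟦n + 1⟧'
      rw [Category.assoc, ← h4, zero_comp, ← Category.assoc]
      change ((f ≫ δ') ≫ v⟦n⟧'⟦(1 : ℤ)⟧') ≫ _ = 0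
      rw [hx, zero_comp]
    rw [← cancel_mono ((shiftFunctorAdd' T n 1 (n + 1) rfl).app N').inv, h3, zero_comp]
  obtain ⟨g, hg⟩ : ∃ g : p ⟶ N⟦n⟧, f = g ≫ w⟦n⟧' := Triangle.coyoneda_exact₃ _ hT' f hx0
  obtain ⟨g', hg'⟩ := (h n).2 g
  have hg' : g' ≫ v⟦n⟧' = g := hg'
  rw [hg, ← hg', Category.assoc, ← Functor.map_comp, h1, Functor.map_zero, comp_zero]

section thk

omit [IsTriangulated T]

/-- The retracts of the objects of a triangulated subcategory form a triangulated subcategory. -/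
lemma isTriangulated_retractClosure (P : ObjectProperty T) [P.IsTriangulated]
    [P.IsClosedUnderIsomorphisms] : P.retractClosure.IsTriangulated where
  toContainsZero := containsZero_mono P.le_retractClosure
  isStableUnderShiftBy a := ⟨by
    rintro X ⟨Y, hY, ⟨r⟩⟩
    exact ⟨Y⟦a⟧, P.le_shift a _ hY, ⟨r.map (shiftFunctor T a)⟩⟩⟩
  toIsTriangulatedClosed₂ := .mk' fun Δ hΔ h1 h3 => by
    have h := extensionProduct_retractClosure_retractClosure_le P P _
      ⟨Δ.obj₁, Δ.obj₃, Δ.mor₁, Δ.mor₂, Δ.mor₃, hΔ, h1, h3⟩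
    exact monotone_retractClosure
      (extensionProduct_le_of_isTriangulatedClosed₂ le_rfl le_rfl) _ h

/-- If `N` is a retract of an object of a triangulated subcategory then `N ⊞ N⟦1⟧` belongs to the
triangulated subcategory. -/
theorem biprod_shift_of_retract (S : ObjectProperty T) [S.IsTriangulated]
    [S.IsClosedUnderIsomorphisms] {N M : T} (r : Retract N M) (hM : S M) :
    S (N ⊞ (N⟦(1 : ℤ)⟧)) := by
  obtain ⟨Z, a, b, hT⟩ := distinguished_cocone_triangle (𝟙 M - r.r ≫ r.i)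
  have hZ : S Z := S.ext_of_isTriangulatedClosed₃ _ hT hM hM
  have hri : r.i ≫ r.r = 𝟙 N := r.retract
  have hab : a ≫ b = 0 := comp_distTriang_mor_zero₂₃ _ hT
  have hea : (𝟙 M - r.r ≫ r.i) ≫ a = 0 := comp_distTriang_mor_zero₁₂ _ hT
  have hbe : b ≫ (𝟙 M - r.r ≫ r.i)⟦(1 : ℤ)⟧' = 0 := comp_distTriang_mor_zero₃₁ _ hT
  obtain ⟨r', hr'⟩ : ∃ r' : Z ⟶ N, r.r = a ≫ r' := Triangle.yoneda_exact₂ _ hT r.r (by
    change (𝟙 M - r.r ≫ r.i) ≫ r.r = 0
    rw [Preadditive.sub_comp, Category.id_comp, Category.assoc, hri, Category.comp_id, sub_self])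
  obtain ⟨i', hi'⟩ : ∃ i' : N⟦(1 : ℤ)⟧ ⟶ Z, r.i⟦(1 : ℤ)⟧' = i' ≫ b :=
    Triangle.coyoneda_exact₁ _ hT (r.i⟦(1 : ℤ)⟧') (by
      change r.i⟦(1 : ℤ)⟧' ≫ (𝟙 M - r.r ≫ r.i)⟦(1 : ℤ)⟧' = 0
      rw [← Functor.map_comp, Preadditive.comp_sub, Category.comp_id, ← Category.assoc, hri,
        Category.id_comp, sub_self, Functor.map_zero])
  let φ : Z ⟶ N ⊞ N⟦(1 : ℤ)⟧ := biprod.lift r' (b ≫ r.r⟦(1 : ℤ)⟧')
  let ψ : N ⊞ N⟦(1 : ℤ)⟧ ⟶ Z := biprod.desc (r.i ≫ a) (i' - (i' ≫ r') ≫ r.i ≫ a)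
  have hψφ : ψ ≫ φ = 𝟙 _ := by
    have h1 : (r.i ≫ a) ≫ r' = 𝟙 N := by rw [Category.assoc, ← hr', hri]
    have h2 : (r.i ≫ a) ≫ b ≫ r.r⟦(1 : ℤ)⟧' = 0 := by
      rw [Category.assoc, ← Category.assoc a, hab, zero_comp, comp_zero]
    have h3 : (i' - (i' ≫ r') ≫ r.i ≫ a) ≫ r' = 0 := by
      rw [Preadditive.sub_comp, Category.assoc (i' ≫ r'), h1, Category.comp_id, sub_self]
    have h4 : (i' - (i' ≫ r') ≫ r.i ≫ a) ≫ b ≫ r.r⟦(1 : ℤ)⟧' = 𝟙 _ := by
      rw [Preadditive.sub_comp, Category.assoc (i' ≫ r'), h2, comp_zero, sub_zero,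
        ← Category.assoc, ← hi', ← Functor.map_comp, hri, CategoryTheory.Functor.map_id]
    apply biprod.hom_ext <;> apply biprod.hom_ext'
    · simpa [φ, ψ] using h1
    · simpa [φ, ψ] using h3
    · simpa [φ, ψ] using h2
    · simpa [φ, ψ] using h4
  have hmono : Mono φ := Preadditive.mono_of_cancel_zero _ fun x hx => by
    have h1 : x ≫ r' = 0 := by
      have := congrArg (· ≫ biprod.fst) hx
      simpa [φ] using this
    have h2 : x ≫ b ≫ r.r⟦(1 : ℤ)⟧' = 0 := by
      have := congrArg (· ≫ biprod.snd) hx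
      simpa [φ] using this
    have h3 : x ≫ b = 0 := by
      have h5 : b = b ≫ r.r⟦(1 : ℤ)⟧' ≫ r.i⟦(1 : ℤ)⟧' := by
        rw [Functor.map_sub, CategoryTheory.Functor.map_id, Functor.map_comp,
          Preadditive.comp_sub, Category.comp_id, sub_eq_zero] at hbe
        exact hbe
      rw [h5, ← Category.assoc, ← Category.assoc, Category.assoc x, h2, zero_comp]
    obtain ⟨y, hy⟩ : ∃ y, x = y ≫ a := Triangle.coyoneda_exact₃ _ hT x h3
    have h4 : y ≫ r.r = 0 := by rw [hr', ← Category.assoc, ← hy, h1]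
    have h5 : y = y ≫ (𝟙 M - r.r ≫ r.i) := by
      rw [Preadditive.comp_sub, Category.comp_id, ← Category.assoc, h4, zero_comp, sub_zero]
    rw [hy, h5, Category.assoc, hea, comp_zero]
  have : IsSplitEpi φ := ⟨⟨⟨ψ, hψφ⟩⟩⟩
  have : IsIso φ := isIso_of_mono_of_isSplitEpi φ
  exact S.prop_of_iso (asIso φ) hZ

lemma ThkOf.trans {p q N : T} [IsTriangulated T] (h : ThkOf p q) (hN : ThkOf q N) : ThkOf p N :=
  (ThkOf.le_iff (Q := ThkOf p)).2 h _ hN

lemma ThkOf.biprod_shift (p : T) [IsTriangulated T] : ThkOf p (p ⊞ p⟦(1 : ℤ)⟧) :=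
  (ThkOf p).ext_of_isTriangulatedClosed₂ _ (binaryBiproductTriangle_distinguished p (p⟦(1 : ℤ)⟧))
    (ThkOf.self p) ((ThkOf p).le_shift 1 _ (ThkOf.self p))

lemma ThkOf.of_biprod (p q : T) : ThkOf (p ⊞ q) p :=
  (ThkOf (p ⊞ q)).prop_of_retract ⟨biprod.inl, biprod.fst, biprod.inl_fst⟩ (ThkOf.self _)

lemma ThkOf.of_iso {p q : T} (e : p ≅ q) : ThkOf p q :=
  (ThkOf p).prop_of_retract ⟨e.inv, e.hom, e.inv_hom_id⟩ (ThkOf.self _)

theorem LApp.trans [IsTriangulated T] {p q N : T} (h : ThkOf p q) (h' : ThkOf q p) (hN : LApp p N) :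
    LApp q N := by
  obtain ⟨W, N', w, u, δ, hT, hW, hN'⟩ := hN
  exact ⟨W, N', w, u, δ, hT, AOrth.of_thk_right (show AOrth W p from hW) h, ThkOf.trans h' hN'⟩

theorem RApp.trans [IsTriangulated T] {p q N : T} (h : ThkOf p q) (h' : ThkOf q p) (hN : RApp p N) :
    RApp q N := by
  obtain ⟨N', W, w, u, δ, hT, hN', hW⟩ := hN
  exact ⟨N', W, w, u, δ, hT, ThkOf.trans h' hN', AOrth.of_thk_left (show AOrth p W from hW) h⟩

end thk

section ret

variable {p : T} (K : ObjectProperty T) [K.IsTriangulated] [K.IsClosedUnderIsomorphisms]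

omit [IsTriangulated T] in
lemma thkOf_le_retractClosure (hK : K p) : ThkOf p ≤ K.retractClosure := by
  have := isTriangulated_retractClosure K
  rw [ThkOf.le_iff]
  exact le_retractClosure _ _ hK

/-- If `N` is a retract of an object with a left approximation then `N ⊞ N⟦1⟧` has a left
approximation by an object of any triangulated subcategory which contains `p` and generates the
same thick subcategory. -/
theorem exists_left_of_retract (hK : K p) (hK' : K ≤ ThkOf p) {N : T}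
    (h : (LApp p).retractClosure N) :
    ∃ (W N' : T) (w : W ⟶ N ⊞ (N⟦(1 : ℤ)⟧)) (u : N ⊞ (N⟦(1 : ℤ)⟧) ⟶ N')
      (δ : N' ⟶ W⟦(1 : ℤ)⟧), Triangle.mk w u δ ∈ distTriang T ∧ AOrth W p ∧ K N' := by
  let E := extensionProduct (LOrth p) K
  have hE : E.IsTriangulated := by
    have : E.IsStableUnderShift ℤ := inferInstanceAs ((extensionProduct _ _).IsStableUnderShift ℤ)
    have : E.IsClosedUnderIsomorphisms :=
      inferInstanceAs (extensionProduct _ _).IsClosedUnderIsomorphisms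
    refine isTriangulated_of_ext (containsZero_mono (le_extensionProduct_right _)) ?_
    exact ext_le_of_swap (L := LOrth p) (K := K) fun Y Z hY hZ f =>
      AOrth.of_thk_right (show AOrth Z p from hZ) (hK' _ hY) 1 f
  have hE' : E.IsClosedUnderIsomorphisms :=
    inferInstanceAs (extensionProduct _ _).IsClosedUnderIsomorphisms
  have h1 : LApp p ≤ E.retractClosure := calc
    LApp p ≤ extensionProduct (LOrth p).retractClosure K.retractClosure :=
      (monotone_extensionProduct_left _ (le_retractClosure _)).trans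
        (monotone_extensionProduct_right _ (thkOf_le_retractClosure K hK))
    _ ≤ E.retractClosure := extensionProduct_retractClosure_retractClosure_le _ _
  have h2 : (LApp p).retractClosure ≤ E.retractClosure := by
    rwa [retractClosure_le_iff]
  obtain ⟨M, hM, ⟨r⟩⟩ := h2 N h
  obtain ⟨W, N', w, u, δ, hT, hW, hN'⟩ := biprod_shift_of_retract E r hM
  exact ⟨W, N', w, u, δ, hT, hW, hN'⟩

/-- If `N` is a retract of an object with a right approximation then `N ⊞ N⟦1⟧` has a right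
approximation by an object of any triangulated subcategory which contains `p` and generates the
same thick subcategory. -/
theorem exists_right_of_retract (hK : K p) (hK' : K ≤ ThkOf p) {N : T}
    (h : (RApp p).retractClosure N) :
    ∃ (N' W : T) (v : N' ⟶ N ⊞ (N⟦(1 : ℤ)⟧)) (w : N ⊞ (N⟦(1 : ℤ)⟧) ⟶ W)
      (δ : W ⟶ N'⟦(1 : ℤ)⟧), Triangle.mk v w δ ∈ distTriang T ∧ K N' ∧ AOrth p W := by
  let E := extensionProduct K (ROrth p)
  have hE : E.IsTriangulated := by
    have : E.IsStableUnderShift ℤ := inferInstanceAs ((extensionProduct _ _).IsStableUnderShift ℤ)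
    have : E.IsClosedUnderIsomorphisms :=
      inferInstanceAs (extensionProduct _ _).IsClosedUnderIsomorphisms
    refine isTriangulated_of_ext (containsZero_mono (le_extensionProduct_left _)) ?_
    exact ext_le_of_swap (L := K) (K := ROrth p) fun Y Z hY hZ f =>
      AOrth.of_thk_left (show AOrth p Y from hY) (hK' _ hZ) 1 f
  have hE' : E.IsClosedUnderIsomorphisms :=
    inferInstanceAs (extensionProduct _ _).IsClosedUnderIsomorphisms
  have h1 : RApp p ≤ E.retractClosure := calc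
    RApp p ≤ extensionProduct K.retractClosure (ROrth p).retractClosure :=
      (monotone_extensionProduct_left _ (thkOf_le_retractClosure K hK)).trans
        (monotone_extensionProduct_right _ (le_retractClosure _))
    _ ≤ E.retractClosure := extensionProduct_retractClosure_retractClosure_le _ _
  have h2 : (RApp p).retractClosure ≤ E.retractClosure := by
    rwa [retractClosure_le_iff]
  obtain ⟨M, hM, ⟨r⟩⟩ := h2 N h
  obtain ⟨W, N', w, u, δ, hT, hW, hN'⟩ := biprod_shift_of_retract E r hM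
  exact ⟨W, N', w, u, δ, hT, hW, hN'⟩

end ret

section functor

variable {D : Type u'} [Category.{v'} D] [HasZeroObject D] [Preadditive D] [HasShift D ℤ]
  [∀ n : ℤ, (shiftFunctor D n).Additive] [Pretriangulated D] (F : D ⥤ T) [F.CommShift ℤ]
  [F.IsTriangulated]

theorem ThkOf.map {G Y : D} (h : ThkOf G Y) : ThkOf (F.obj G) (F.obj Y) := by
  have : ((ThkOf (F.obj G)).inverseImage F).IsStableUnderRetracts :=
    ⟨fun r h => (ThkOf (F.obj G)).prop_of_retract (r.map F) h⟩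
  exact (ThkOf.le_iff (Q := (ThkOf (F.obj G)).inverseImage F)).2 (ThkOf.self (F.obj G)) _ h

theorem lApp_of_functor {G Y : D} (hY : ThkOf G Y) {N : T} (u : N ⟶ F.obj Y)
    (h1 : ∀ n : ℤ, Function.Bijective (fun g : Y ⟶ G⟦n⟧ => F.map g))
    (h2 : ∀ n : ℤ, Function.Bijective (fun g : Y ⟶ G⟦n⟧ => u ≫ F.map g)) : LApp (F.obj G) N := by
  refine lApp_of_bij u (ThkOf.map F hY) fun n => ⟨fun g g' hg => ?_, fun f => ?_⟩
  · obtain ⟨x, hx⟩ := (h1 n).2 (g ≫ ((F.commShiftIso n).app G).inv)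
    obtain ⟨x', hx'⟩ := (h1 n).2 (g' ≫ ((F.commShiftIso n).app G).inv)
    have hx : F.map x = g ≫ ((F.commShiftIso n).app G).inv := hx
    have hx' : F.map x' = g' ≫ ((F.commShiftIso n).app G).inv := hx'
    have hg : u ≫ g = u ≫ g' := hg
    have : x = x' := (h2 n).1 (by
      change u ≫ F.map x = u ≫ F.map x'
      rw [hx, hx', ← Category.assoc, hg, Category.assoc])
    rw [← cancel_mono ((F.commShiftIso n).app G).inv, ← hx, ← hx', this]
  · obtain ⟨x, hx⟩ := (h2 n).2 (f ≫ ((F.commShiftIso n).app G).inv)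
    have hx : u ≫ F.map x = f ≫ ((F.commShiftIso n).app G).inv := hx
    refine ⟨F.map x ≫ ((F.commShiftIso n).app G).hom, ?_⟩
    change u ≫ F.map x ≫ ((F.commShiftIso n).app G).hom = f
    rw [← Category.assoc, hx, Category.assoc, Iso.inv_hom_id, Category.comp_id]

theorem rApp_of_functor {G Y : D} (hY : ThkOf G Y) {N : T} (v : F.obj Y ⟶ N)
    (h1 : ∀ n : ℤ, Function.Bijective (fun g : G ⟶ Y⟦n⟧ => F.map g))
    (h2 : ∀ n : ℤ, Function.Bijective (fun g : G ⟶ Y⟦n⟧ =>
      F.map g ≫ (F.commShiftIso n).hom.app Y ≫ v⟦n⟧')) : RApp (F.obj G) N := by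
  refine rApp_of_bij v (ThkOf.map F hY) fun n => ⟨fun g g' hg => ?_, fun f => ?_⟩
  · obtain ⟨x, hx⟩ := (h1 n).2 (g ≫ (F.commShiftIso n).inv.app Y)
    obtain ⟨x', hx'⟩ := (h1 n).2 (g' ≫ (F.commShiftIso n).inv.app Y)
    have hx : F.map x = g ≫ (F.commShiftIso n).inv.app Y := hx
    have hx' : F.map x' = g' ≫ (F.commShiftIso n).inv.app Y := hx'
    have hg : g ≫ v⟦n⟧' = g' ≫ v⟦n⟧' := hg
    have : x = x' := (h2 n).1 (by
      change F.map x ≫ (F.commShiftIso n).hom.app Y ≫ v⟦n⟧' =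
        F.map x' ≫ (F.commShiftIso n).hom.app Y ≫ v⟦n⟧'
      rw [hx, hx', Category.assoc, Iso.inv_hom_id_app_assoc, Category.assoc,
        Iso.inv_hom_id_app_assoc, hg])
    rw [← cancel_mono ((F.commShiftIso n).inv.app Y), ← hx, ← hx', this]
  · obtain ⟨x, hx⟩ := (h2 n).2 f
    refine ⟨F.map x ≫ (F.commShiftIso n).hom.app Y, ?_⟩
    change (F.map x ≫ (F.commShiftIso n).hom.app Y) ≫ v⟦n⟧' = f
    rw [Category.assoc]
    exact hx

end functor

end Orl
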