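import Pool.Agent.Work.MP_a6e60d_ag.Sm.Rep

/-!
MP_a6e60d_ag: approximations of complexes by complexes in the DG thick closure of a given complex.
-/

open CategoryTheory CochainComplex HomComplex Limits Pretriangulated ZeroObject ObjectProperty

attribute [-instance] CategoryTheory.catToReflQuiver

namespace Orl

universe w w'

section dg

variable {k : Type w} [CommRing k] {A : DGCat.{0, 1} k} {a b c M : A.Obj}

lemma Cone.isRetract_of_eq_zero {f : A.Hom a b 0} (K : DGCat.Cone f c) (hf : f = 0) :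
    DGCat.IsRetract 0 b c := by
  subst hf
  refine ⟨K.inr, K.snd, K.d_inr, ?_, (0 : A.Hom b b (-1)), ?_⟩
  · refine K.d_snd.trans ?_
    rw [map_zero, neg_zero]
  · refine (map_zero _).trans ?_
    exact (sub_eq_zero.2 K.inr_snd).symm

lemma IsBdry.of_comp_shift {n : ℤ} (Sh : Shift n b M) {z : A.Hom a b n}
    (h : IsBdry (A.comp (add_neg_cancel n) z Sh.r)) : IsBdry z := by
  have h2 := IsBdry.comp_right h Sh.p_closed (zero_add n)
  rwa [A.assoc (add_neg_cancel n) (neg_add_cancel n) (zero_add n) (add_zero n), Sh.r_p,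
    A.comp_id] at h2

end dg

variable {C : Type 1} [Category.{0} C] [Abelian C] [HasDerivedCategory.{w'} C]

variable {k : Type w} [CommRing k] [Linear k C]

omit [HasDerivedCategory.{w'} C] in
/-- a complex is a retract of the cone of its zero endomorphism -/
lemma isRetract_cone_zero (c : CochainComplex C ℤ) :
    DGCat.IsRetract (A := cxDG k C) 0 c (mappingCone (0 : c ⟶ c)) :=
  Cone.isRetract_of_eq_zero (cxCone (k := k) (0 : c ⟶ c)) (Cochain.ofHom_zero _ _)

/-- the cone of the zero endomorphism in the derived category -/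
lemma nonempty_iso_cone_zero (c : CochainComplex C ℤ) :
    Nonempty (DerivedCategory.Q.obj (mappingCone (0 : c ⟶ c)) ≅
      DerivedCategory.Q.obj c ⊞ (DerivedCategory.Q.obj c)⟦(1 : ℤ)⟧) := by
  have hT := rot_of_distTriang _ (DerivedCategory.mappingCone_triangle_distinguished (0 : c ⟶ c))
  obtain ⟨e, -⟩ := exists_iso_binaryBiproduct_of_distTriang _ hT (by
    change -(CategoryTheory.shiftFunctor _ (1 : ℤ)).map
      (DerivedCategory.Q.map (0 : c ⟶ c)) = 0
    rw [Functor.map_zero, Functor.map_zero, neg_zero])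
  exact ⟨e⟩

namespace RepClass

variable {S : ObjectProperty (CochainComplex C ℤ)} (hS : RepClass S)

include hS

theorem orthTo {K L : CochainComplex C ℤ} (hK : S K) (hL : S L)
    (h : AOrth (DerivedCategory.Q.obj K) (DerivedCategory.Q.obj L)) :
    OrthTo (A := cxDG k C) K L := by
  intro n z hz
  let Sh := cxDGShift (k := k) n L
  have hz' : IsClosed (A := cxDG k C) ((cxDG k C).comp (add_neg_cancel n) z Sh.r) :=
    hz.comp Sh.r_closed _
  obtain ⟨φ, hφ⟩ := exists_ofHom (K := K) (L := L⟦n⟧)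
    ((cxDG k C).comp (add_neg_cancel n) z Sh.r) hz'
  have h0 : DerivedCategory.Q.map φ = DerivedCategory.Q.map 0 := by
    have h1 := h n (DerivedCategory.Q.map φ ≫ (DerivedCategory.Q.commShiftIso n).hom.app L)
    rw [Functor.map_zero]
    rw [← cancel_mono ((DerivedCategory.Q.commShiftIso n).hom.app L), h1, zero_comp]
  obtain ⟨y, hy⟩ := hS.exists_z hK (hS.shift L n hL) h0
  refine IsBdry.of_comp_shift Sh (IsBdry.of (A := cxDG k C) (m := -1) y (hy.trans ?_))
  rw [hφ]
  exact (congrArg _ (Cochain.ofHom_zero _ _)).trans (sub_zero _)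

/-- **Left approximations.** -/
theorem exists_left {P c : CochainComplex C ℤ} (hP : S P) (hc : S c)
    (h : (LApp (DerivedCategory.Q.obj P)).retractClosure (DerivedCategory.Q.obj c)) :
    ∃ (Z X : CochainComplex C ℤ) (z : (cxDG k C).Hom Z X 0), S Z ∧ S X ∧
      DGCat.IsRetract (A := cxDG k C) 0 c Z ∧ DGCat.Thick (A := cxDG k C) P X ∧ IsClosed z ∧
      QIso (prec z P) := by
  have hP' : sub k S P P := ⟨hP, .gen⟩
  have hK := (hS.repClass_sub k P).prop_isTriangulated hP'
  obtain ⟨W, N', w, u, δ, hT, hW, ⟨X, hX, ⟨e⟩⟩⟩ := exists_left_of_retract (prop (sub k S P))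
    ⟨P, hP', ⟨Iso.refl _⟩⟩ (by
      rintro N ⟨J, hJ, ⟨i⟩⟩
      refine (ThkOf _).prop_of_iso i ?_
      exact thick_le k (ThkOf (DerivedCategory.Q.obj P)) hJ.2 (ThkOf.self _)) h
  obtain ⟨i⟩ := nonempty_iso_cone_zero c
  have hZ : S (mappingCone (0 : c ⟶ c)) := hS.cone _ hc hc
  obtain ⟨φ, hφ⟩ := hS.exists_hom hZ hX.1 (i.hom ≫ u ≫ e.inv)
  refine ⟨mappingCone (0 : c ⟶ c), X, Cochain.ofHom φ, hZ, hX.1, isRetract_cone_zero c, hX.2,
    δ_ofHom φ, ?_⟩
  refine prec_qIso_of_cone (cxCone (k := k) φ) ?_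
  refine hS.orthTo (hS.cone φ hZ hX.1) hP ?_
  have hT1 := rot_of_distTriang _ hT
  have hT2 := DerivedCategory.mappingCone_triangle_distinguished φ
  have j := Triangle.π₃.mapIso (isoTriangleOfIso₁₂ _ _ hT2 hT1 i e (by
    change DerivedCategory.Q.map φ ≫ e.hom = i.hom ≫ u
    rw [hφ]
    simp))
  exact AOrth.of_iso_left j (AOrth.shift_left hW 1)

/-- **Right approximations.** -/
theorem exists_right {P c : CochainComplex C ℤ} (hP : S P) (hc : S c)
    (h : (RApp (DerivedCategory.Q.obj P)).retractClosure (DerivedCategory.Q.obj c)) :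
    ∃ (Z Y : CochainComplex C ℤ) (z : (cxDG k C).Hom Y Z 0), S Z ∧ S Y ∧
      DGCat.IsRetract (A := cxDG k C) 0 c Z ∧ DGCat.Thick (A := cxDG k C) P Y ∧ IsClosed z ∧
      QIso (postc z P) := by
  have hP' : sub k S P P := ⟨hP, .gen⟩
  have hK := (hS.repClass_sub k P).prop_isTriangulated hP'
  obtain ⟨N', W, v, w, δ, hT, ⟨Y, hY, ⟨e⟩⟩, hW⟩ := exists_right_of_retract (prop (sub k S P))
    ⟨P, hP', ⟨Iso.refl _⟩⟩ (by
      rintro N ⟨J, hJ, ⟨i⟩⟩
      refine (ThkOf _).prop_of_iso i ?_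
      exact thick_le k (ThkOf (DerivedCategory.Q.obj P)) hJ.2 (ThkOf.self _)) h
  obtain ⟨i⟩ := nonempty_iso_cone_zero c
  have hZ : S (mappingCone (0 : c ⟶ c)) := hS.cone _ hc hc
  obtain ⟨φ, hφ⟩ := hS.exists_hom hY.1 hZ (e.hom ≫ v ≫ i.inv)
  refine ⟨mappingCone (0 : c ⟶ c), Y, Cochain.ofHom φ, hZ, hY.1, isRetract_cone_zero c, hY.2,
    δ_ofHom φ, ?_⟩
  refine postc_qIso_of_cone (cxCone (k := k) φ) ?_
  refine hS.orthTo hP (hS.cone φ hY.1 hZ) ?_
  have hT2 := DerivedCategory.mappingCone_triangle_distinguished φ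
  have j := Triangle.π₃.mapIso (isoTriangleOfIso₁₂ _ _ hT2 hT e i (by
    change DerivedCategory.Q.map φ ≫ i.hom = e.hom ≫ v
    rw [hφ]
    simp))
  exact AOrth.of_iso_right j hW

end RepClass

end Orl
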