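import Pool.Agent.Work.MP_a6e60d_ag.DG.Blocks
import Pool.Agent.Work.MP_a6e60d_ag.DG.RichCx
import Pool.Agent.Work.MP_a6e60d_ag.LF.TwDef

/-!
MP_a6e60d_ag: iterated cones decompose into blocks.
-/

open CategoryTheory CochainComplex HomComplex Limits

attribute [-instance] CategoryTheory.catToReflQuiver

namespace Orl

section dg

variable {k : Type} [CommRing k] {A : DGCat.{0, 1} k} {r : ℕ} {b : Fin r → A.Obj}
  {M P P' : A.Obj}

namespace Decomp

lemma sum_transfer (D : Decomp b P) (t : ℤ) (p : A.Hom M P t) (q : A.Hom P M (-t)) :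
    ∑ j, ∑ a, A.comp (neg_add_cancel (D.deg j a - t))
      (A.comp (show t + -D.deg j a = -(D.deg j a - t) by lia) p (D.π j a))
      (A.comp (show D.deg j a + -t = D.deg j a - t by lia) (D.ι j a) q) =
    A.comp (add_neg_cancel t) p q := by
  have h1 : ∀ (j : Fin r) (a : D.I j),
      A.comp (neg_add_cancel (D.deg j a - t))
        (A.comp (show t + -D.deg j a = -(D.deg j a - t) by lia) p (D.π j a))
        (A.comp (show D.deg j a + -t = D.deg j a - t by lia) (D.ι j a) q) =
      A.comp (add_neg_cancel t) (A.comp (add_zero t) p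
        (A.comp (neg_add_cancel (D.deg j a)) (D.π j a) (D.ι j a))) q := by
    intro j a
    rw [← A.assoc (show t + -D.deg j a = -(D.deg j a - t) by lia)
      (neg_add_cancel (D.deg j a)) (show -(D.deg j a - t) + D.deg j a = t by lia)
      (add_zero t) p (D.π j a) (D.ι j a),
      A.assoc (show -(D.deg j a - t) + D.deg j a = t by lia)
        (show D.deg j a + -t = D.deg j a - t by lia) (add_neg_cancel t)
        (neg_add_cancel (D.deg j a - t))]
  simp only [h1]
  have h2 := congrArg (fun x => A.comp (add_neg_cancel t) (A.comp (add_zero t) p x) q) D.total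
  simpa only [map_sum, LinearMap.sum_apply, A.comp_id] using h2

/-- a decomposition of a graded direct summand -/
def transfer (D : Decomp b P) (t : ℤ) (p : A.Hom M P t) (q : A.Hom P M (-t))
    (h : A.comp (add_neg_cancel t) p q = A.id M) : Decomp b M where
  I := D.I
  fin := D.fin
  deg j a := D.deg j a - t
  ι j a := A.comp (show D.deg j a + -t = D.deg j a - t by lia) (D.ι j a) q
  π j a := A.comp (show t + -D.deg j a = -(D.deg j a - t) by lia) p (D.π j a)
  total := (D.sum_transfer t p q).trans h

/-- a decomposition of a sum -/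
def add (D : Decomp b P) (D' : Decomp b P') (t t' : ℤ) (p : A.Hom M P t)
    (q : A.Hom P M (-t)) (p' : A.Hom M P' t') (q' : A.Hom P' M (-t'))
    (h : A.comp (add_neg_cancel t) p q + A.comp (add_neg_cancel t') p' q' = A.id M) :
    Decomp b M where
  I j := D.I j ⊕ D'.I j
  fin j := by
    have := D.fin j
    have := D'.fin j
    infer_instance
  deg j := Sum.elim (fun a => D.deg j a - t) (fun a => D'.deg j a - t')
  ι j
    | .inl a => A.comp (show D.deg j a + -t = D.deg j a - t by lia) (D.ι j a) q
    | .inr a => A.comp (show D'.deg j a + -t' = D'.deg j a - t' by lia) (D'.ι j a) q'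
  π j
    | .inl a => A.comp (show t + -D.deg j a = -(D.deg j a - t) by lia) p (D.π j a)
    | .inr a => A.comp (show t' + -D'.deg j a = -(D'.deg j a - t') by lia) p' (D'.π j a)
  total := by
    simp only [Fintype.sum_sum_type]
    rw [Finset.sum_add_distrib, ← h]
    exact congrArg₂ (· + ·) (D.sum_transfer t p q) (D'.sum_transfer t' p' q')

/-- the decomposition of a block -/
def self (b : Fin r → A.Obj) (j : Fin r) : Decomp b (b j) where
  I l := PLift (l = j)
  fin l := inferInstance
  deg _ _ := 0
  ι l h := h.down ▸ A.id (b l)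
  π l h := h.down ▸ A.id (b l)
  total := by
    rw [Finset.sum_eq_single j]
    · rw [Fintype.sum_subsingleton _ (⟨rfl⟩ : PLift (j = j))]
      exact A.id_comp (A.id (b j))
    · intro l _ hl
      have : IsEmpty (PLift (l = j)) := ⟨fun h => hl h.down⟩
      simp
    · simp

end Decomp

end dg

section cx

variable {k : Type} [CommRing k] {C : Type 1} [Category.{0} C]

section

variable [Preadditive C] [Linear k C] {r : ℕ} {b : Fin r → CochainComplex C ℤ}
  {K L : CochainComplex C ℤ}

/-- transport of a decomposition along an isomorphism of complexes -/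
lemma nonempty_decomp_of_iso (e : K ≅ L) (D : Decomp (A := cxDG k C) b L) :
    Nonempty (Decomp (A := cxDG k C) b K) :=
  ⟨D.transfer 0 (Cochain.ofHom e.hom) (Cochain.ofHom e.inv) (by
    refine (Cochain.ofHom_comp e.hom e.inv).symm.trans ?_
    rw [e.hom_inv_id]
    rfl)⟩

lemma nonempty_decomp_shift (n : ℤ) (D : Decomp (A := cxDG k C) b K) :
    Nonempty (Decomp (A := cxDG k C) b (show CochainComplex C ℤ from K⟦n⟧)) :=
  ⟨D.transfer n (cxDGShift (k := k) n K).p (cxDGShift (k := k) n K).r
    (cxDGShift (k := k) n K).p_r⟩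

lemma nonempty_decomp_cone [HasBinaryBiproducts C] (f : K ⟶ L)
    (D : Decomp (A := cxDG k C) b K) (D' : Decomp (A := cxDG k C) b L) :
    Nonempty (Decomp (A := cxDG k C) b (mappingCone f)) :=
  ⟨D.add D' 1 0 (cxCone (k := k) f).fst (cxCone (k := k) f).inl (cxCone (k := k) f).snd
    (cxCone (k := k) f).inr (cxCone (k := k) f).total⟩

end

variable [Abelian C] [Linear k C] {r : ℕ} (E : Fin r → C)

/-- **Iterated cones of blocks decompose into blocks.** -/
theorem nonempty_decomp_of_tw {B : ObjectProperty C}
    (hB : ∀ X, B X → ∃ j, Nonempty (X ≅ E j)) {K : CochainComplex C ℤ} (hK : LF.Tw B K) :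
    Nonempty (Decomp (A := cxDG k C) (fun j => (CochainComplex.singleFunctor C 0).obj (E j)) K) := by
  induction hK with
  | single n X h =>
    obtain ⟨j, ⟨e⟩⟩ := hB X h
    obtain ⟨D⟩ := nonempty_decomp_shift (k := k) (-n) (Decomp.self (A := cxDG k C)
      (fun j => (CochainComplex.singleFunctor C 0).obj (E j)) j)
    exact nonempty_decomp_of_iso ((CochainComplex.singleFunctor C n).mapIso e ≪≫
      (((CochainComplex.singleFunctors C).shiftIso (-n) n 0 (by lia)).app (E j)).symm) D
  | shift K n _ h => exact h.elim (nonempty_decomp_shift n)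
  | cone f _ _ h h' => exact h.elim fun D => h'.elim fun D' => nonempty_decomp_cone f D D'

section single

omit [Linear k C]

lemma single_cochain_eq_zero {X Y : C} {n : ℤ} (hn : n ≠ 0)
    (f : Cochain ((CochainComplex.singleFunctor C 0).obj X)
      ((CochainComplex.singleFunctor C 0).obj Y) n) : f = 0 := by
  ext p q hpq
  by_cases hp : p = 0
  · have hq : q ≠ 0 := by lia
    exact (HomologicalComplex.isZero_single_obj_X (ComplexShape.up ℤ) 0 Y q hq).eq_of_tgt _ _
  · exact (HomologicalComplex.isZero_single_obj_X (ComplexShape.up ℤ) 0 X p hp).eq_of_src _ _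

omit [Abelian C] in
lemma conj_aux {a b X Y : C} (e : a ≅ X) (e' : b ≅ Y) (φ : a ⟶ b) :
    e.hom ≫ (e.inv ≫ φ ≫ e'.hom) ≫ e'.inv = φ := by
  simp

lemma single_cochain_eq_ofHom {X Y : C}
    (f : Cochain ((CochainComplex.singleFunctor C 0).obj X)
      ((CochainComplex.singleFunctor C 0).obj Y) 0) :
    ∃ g : X ⟶ Y, Cochain.ofHom ((CochainComplex.singleFunctor C 0).map g) = f := by
  let eX := HomologicalComplex.singleObjXSelf (ComplexShape.up ℤ) 0 X
  let eY := HomologicalComplex.singleObjXSelf (ComplexShape.up ℤ) 0 Y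
  refine ⟨eX.inv ≫ f.v 0 0 rfl ≫ eY.hom, ?_⟩
  ext p
  by_cases hp : p = 0
  · subst hp
    have h1 : ((CochainComplex.singleFunctor C 0).map (eX.inv ≫ f.v 0 0 rfl ≫ eY.hom)).f 0 =
        eX.hom ≫ (eX.inv ≫ f.v 0 0 rfl ≫ eY.hom) ≫ eY.inv :=
      HomologicalComplex.single_map_f_self (ComplexShape.up ℤ) 0 _
    rw [Cochain.ofHom_v, h1]
    exact conj_aux eX eY (f.v 0 0 rfl)
  · exact (HomologicalComplex.isZero_single_obj_X (ComplexShape.up ℤ) 0 X p hp).eq_of_src _ _

end single

/-- The single complexes of directed objects with finite spaces of morphisms are blocks. -/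
theorem isBlocks_single (hdir : ∀ i j : Fin r, j < i → ∀ f : E i ⟶ E j, f = 0)
    (hfin : ∀ i j : Fin r, Module.Finite k (E i ⟶ E j)) :
    IsBlocks (A := cxDG k C) (fun j => (CochainComplex.singleFunctor C 0).obj (E j)) where
  conc i j n f hn := single_cochain_eq_zero hn f
  dir i j n f hij := by
    by_cases hn : n = 0
    · subst hn
      obtain ⟨g, hg⟩ := single_cochain_eq_ofHom f
      rw [← hg, hdir i j hij g, Functor.map_zero]
      exact Cochain.ofHom_zero _ _
    · exact single_cochain_eq_zero hn f
  fin i j := by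
    have := hfin i j
    let φ : (E i ⟶ E j) →ₗ[k] Cochain ((CochainComplex.singleFunctor C 0).obj (E i))
        ((CochainComplex.singleFunctor C 0).obj (E j)) 0 :=
      { toFun := fun g => Cochain.ofHom ((CochainComplex.singleFunctor C 0).map g)
        map_add' := fun g g' => by
          rw [Functor.map_add]
          exact Cochain.ofHom_add _ _
        map_smul' := fun c g => by
          rw [Functor.map_smul]
          ext p
          simp }
    have h := Module.Finite.of_surjective φ fun f => single_cochain_eq_ofHom f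
    exact h

end cx

end Orl
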