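import Pool.Agent.Work.MP_a6e60d_ag.Sm.Inst
import Pool.Agent.Work.MP_a6e60d_ag.Sm.TwDecomp
import Pool.Agent.Work.MP_a6e60d_ag.LF.Blk

/-!
MP_a6e60d_ag: the blocks of the tilting object: order, separability of the algebras of
endomorphisms, decomposition of iterated cones.
-/

open CategoryTheory CochainComplex HomComplex Limits

attribute [-instance] CategoryTheory.catToReflQuiver

namespace Orl

section FF

universe v u v' u' w

variable {k : Type w} [CommRing k] {C : Type u} [Category.{v} C] [Preadditive C] [Linear k C]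
  {C' : Type u'} [Category.{v'} C'] [Preadditive C'] [Linear k C'] (F : C ⥤ C') [F.Additive]
  [F.Linear k]

/-- the homomorphism of algebras of endomorphisms given by a linear functor -/
def endMapAlgHom (X : C) : End X →ₐ[k] End (F.obj X) where
  toFun f := F.map f
  map_one' := F.map_id X
  map_mul' f g := F.map_comp g f
  map_zero' := F.map_zero X X
  map_add' _ _ := F.map_add
  commutes' r := by
    change F.map (r • 𝟙 X) = r • 𝟙 (F.obj X)
    rw [F.map_smul, F.map_id]

/-- the isomorphism of algebras of endomorphisms given by a fully faithful linear functor -/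
noncomputable def endMapAlgEquiv [F.Full] [F.Faithful] (X : C) :
    End X ≃ₐ[k] End (F.obj X) :=
  AlgEquiv.ofBijective (endMapAlgHom F X) ⟨fun _ _ h => F.map_injective h,
    fun g => F.map_surjective g⟩

end FF

section Blk

open LF Gal

attribute [local instance] Abelian.hasFiniteBiproducts

variable {k F L : Type} [Field k] [Field F] [Field L] [Algebra k F] [Algebra k L]
variable {C : Type 1} [Category.{0} C] [Abelian C] [Linear k C]

section

variable {E : Type} [Field E] [Algebra k E] {Q : Type} [Category.{0} Q] [Preadditive Q]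
  [Linear k Q] (i : SingleObj E ⥤ Q) [i.Additive] [i.Linear k] [∀ y, Module.Finite E (HomL i y)]
  [i.Full] [i.Faithful]

lemma ind_hom_zero {M N : ModObj k E C} (h : ∀ f : M ⟶ N, f = 0)
    (f : (ind C i).obj M ⟶ (ind C i).obj N) : f = 0 := by
  have := (ind_full (k := k) (C := C) i).1
  obtain ⟨g, rfl⟩ := (ind C i).map_surjective f
  rw [h g, Functor.map_zero]

lemma ind_isSepAlg {M : ModObj k E C} (h : IsSepAlg k (End M)) :
    IsSepAlg k (End ((ind C i).obj M)) := by
  have := (ind_full (k := k) (C := C) i).1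
  have := (ind_full (k := k) (C := C) i).2
  exact h.equiv (endMapAlgEquiv (ind C i) M)

end

/-- the blocks in the order of the directed collection: first those of the vertex `f`, then those
of `b`, then those of `a` -/
def blkIdx (na nb nf : ℕ) : Fin (nf + (nb + na)) → Fin na ⊕ Fin nb ⊕ Fin nf :=
  Fin.addCases (fun x => .inr (.inr x)) (Fin.addCases (fun y => .inr (.inl y)) fun z => .inl z)

lemma blkIdx_surjective (na nb nf : ℕ) : Function.Surjective (blkIdx na nb nf) := by
  rintro (x | x | x)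
  · exact ⟨Fin.natAdd nf (Fin.natAdd nb x), by simp [blkIdx]⟩
  · exact ⟨Fin.natAdd nf (Fin.castAdd na x), by simp [blkIdx]⟩
  · exact ⟨Fin.castAdd (nb + na) x, by simp [blkIdx]⟩

variable (D : Dat k F L) {ιa ιb ιf : Type} (ta : ιa → ModObj k F C) (tb : ιb → ModObj k L C)
  (tf : ιf → ModObj k F C) {na nb nf : ℕ} (ea : Fin na → ιa) (eb : Fin nb → ιb) (ef : Fin nf → ιf)

/-- the blocks in the order of the directed collection -/
noncomputable def blkB (i : Fin (nf + (nb + na))) : LinFun k (Ob D) C :=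
  blk D ta tb tf (Sum.map ea (Sum.map eb ef) (blkIdx na nb nf i))

lemma blkB_f (x : Fin nf) : blkB D ta tb tf ea eb ef (Fin.castAdd (nb + na) x) =
    (ind C (Ob.iff D)).obj (tf (ef x)) := by
  simp only [blkB, blkIdx, Fin.addCases_left, Sum.map_inr]
  rfl

lemma blkB_b (x : Fin nb) : blkB D ta tb tf ea eb ef (Fin.natAdd nf (Fin.castAdd na x)) =
    (ind C (Ob.ib D)).obj (tb (eb x)) := by
  simp only [blkB, blkIdx, Fin.addCases_left, Fin.addCases_right, Sum.map_inr, Sum.map_inl]
  rfl

lemma blkB_a (x : Fin na) : blkB D ta tb tf ea eb ef (Fin.natAdd nf (Fin.natAdd nb x)) =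
    (ind C (Ob.ia D)).obj (ta (ea x)) := by
  simp only [blkB, blkIdx, Fin.addCases_left, Fin.addCases_right, Sum.map_inr, Sum.map_inl]
  rfl

omit D in
lemma lt_of_castAdd {n m : ℕ} {x y : Fin n} (h : Fin.castAdd m y < Fin.castAdd m x) : y < x := h

omit D in
lemma lt_of_natAdd {n m : ℕ} {x y : Fin n} (h : Fin.natAdd m y < Fin.natAdd m x) : y < x :=
  Fin.lt_def.2 (by
    have := Fin.lt_def.1 h
    rw [Fin.val_natAdd, Fin.val_natAdd] at this
    omega)

/-- the three cases -/
lemma blkB_cases {P : Fin (nf + (nb + na)) → Prop} (h1 : ∀ x : Fin nf, P (Fin.castAdd (nb + na) x))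
    (h2 : ∀ x : Fin nb, P (Fin.natAdd nf (Fin.castAdd na x)))
    (h3 : ∀ x : Fin na, P (Fin.natAdd nf (Fin.natAdd nb x))) (i) : P i := by
  refine Fin.addCases h1 (fun j => ?_) i
  exact Fin.addCases (motive := fun j => P (Fin.natAdd nf j)) h2 h3 j

/-- directedness -/
theorem blkB_hom_zero (ha : ∀ i j : Fin na, j < i → ∀ f : ta (ea i) ⟶ ta (ea j), f = 0)
    (hb : ∀ i j : Fin nb, j < i → ∀ f : tb (eb i) ⟶ tb (eb j), f = 0)
    (hf : ∀ i j : Fin nf, j < i → ∀ f : tf (ef i) ⟶ tf (ef j), f = 0)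
    (i j : Fin (nf + (nb + na))) (hij : j < i)
    (f : blkB D ta tb tf ea eb ef i ⟶ blkB D ta tb tf ea eb ef j) : f = 0 := by
  have := D.finite_F
  have := D.finite_L
  revert f
  refine blkB_cases (P := fun i => j < i → ∀ f : blkB D ta tb tf ea eb ef i ⟶
    blkB D ta tb tf ea eb ef j, f = 0) (fun x => ?_) (fun x => ?_) (fun x => ?_) i hij <;>
  refine blkB_cases (P := fun j => j < _ → ∀ f : blkB D ta tb tf ea eb ef _ ⟶
    blkB D ta tb tf ea eb ef j, f = 0) (fun y => ?_) (fun y => ?_) (fun y => ?_) j <;>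
  intro h
  · rw [blkB_f, blkB_f]
    exact ind_hom_zero _ (hf x y (lt_of_castAdd h))
  · simp only [Fin.lt_def, Fin.val_castAdd, Fin.val_natAdd] at h
    exact absurd h (by have := x.2; omega)
  · simp only [Fin.lt_def, Fin.val_castAdd, Fin.val_natAdd] at h
    exact absurd h (by have := x.2; omega)
  · rw [blkB_b, blkB_f]
    exact block_hom_zero (Ob.ib D) (Ob.iff D) (fun _ => rfl) _ _
  · rw [blkB_b, blkB_b]
    exact ind_hom_zero _ (hb x y (lt_of_castAdd (lt_of_natAdd h)))
  · simp only [Fin.lt_def, Fin.val_castAdd, Fin.val_natAdd] at h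
    exact absurd h (by have := x.2; omega)
  · rw [blkB_a, blkB_f]
    exact block_hom_zero (Ob.ia D) (Ob.iff D) (fun _ => rfl) _ _
  · rw [blkB_a, blkB_b]
    exact block_hom_zero (Ob.ia D) (Ob.ib D) (fun _ => rfl) _ _
  · rw [blkB_a, blkB_a]
    exact ind_hom_zero _ (ha x y (lt_of_natAdd (lt_of_natAdd h)))

/-- separability -/
theorem blkB_isSepAlg (ha : ∀ i, IsSepAlg k (End (ta (ea i))))
    (hb : ∀ i, IsSepAlg k (End (tb (eb i)))) (hf : ∀ i, IsSepAlg k (End (tf (ef i))))
    (i : Fin (nf + (nb + na))) : IsSepAlg k (End (blkB D ta tb tf ea eb ef i)) := by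
  have := D.finite_F
  have := D.finite_L
  refine blkB_cases (P := fun i => IsSepAlg k (End (blkB D ta tb tf ea eb ef i))) (fun x => ?_)
    (fun x => ?_) (fun x => ?_) i
  · rw [blkB_f]
    exact ind_isSepAlg _ (hf x)
  · rw [blkB_b]
    exact ind_isSepAlg _ (hb x)
  · rw [blkB_a]
    exact ind_isSepAlg _ (ha x)

/-- the objects isomorphic to a block -/
theorem exists_iso_blkB (ha : Function.Surjective ea) (hb : Function.Surjective eb)
    (hf : Function.Surjective ef) (X : LinFun k (Ob D) C) (hX : Blk D ta tb tf X) :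
    ∃ i, Nonempty (X ≅ blkB D ta tb tf ea eb ef i) := by
  obtain ⟨s, e⟩ := hX
  obtain ⟨t, rfl⟩ := (Function.Surjective.sumMap ha (Function.Surjective.sumMap hb hf)) s
  obtain ⟨i, rfl⟩ := blkIdx_surjective na nb nf t
  exact ⟨i, e⟩

/-- the family of the blocks as single complexes -/
noncomputable abbrev blkS (i : Fin (nf + (nb + na))) : CochainComplex (LinFun k (Ob D) C) ℤ :=
  (CochainComplex.singleFunctor (LinFun k (Ob D) C) 0).obj (blkB D ta tb tf ea eb ef i)

/-- The blocks of the tilting object and its decomposition, in the DG category of complexes. -/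
theorem blkS_main (hea : Function.Surjective ea) (heb : Function.Surjective eb)
    (hef : Function.Surjective ef)
    (ha : ∀ i j : Fin na, j < i → ∀ f : ta (ea i) ⟶ ta (ea j), f = 0)
    (hb : ∀ i j : Fin nb, j < i → ∀ f : tb (eb i) ⟶ tb (eb j), f = 0)
    (hf : ∀ i j : Fin nf, j < i → ∀ f : tf (ef i) ⟶ tf (ef j), f = 0)
    (haa : ∀ x y, Module.Finite k (ta x ⟶ ta y))
    (hbb : ∀ x y, Module.Finite k (tb x ⟶ tb y))
    (hff : ∀ x y, Module.Finite k (tf x ⟶ tf y))
    (hba : ∀ x y, Module.Finite k ((tb x).pt ⟶ (ta y).pt))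
    (hfa : ∀ x y, Module.Finite k ((tf x).pt ⟶ (ta y).pt))
    (hfb : ∀ x y, Module.Finite k ((tf x).pt ⟶ (tb y).pt))
    (sa : ∀ x, IsSepAlg k (End (ta x))) (sb : ∀ x, IsSepAlg k (End (tb x)))
    (sf : ∀ x, IsSepAlg k (End (tf x))) {P : CochainComplex (LinFun k (Ob D) C) ℤ}
    (hP : Tw (Blk D ta tb tf) P) :
    IsBlocks (A := cxDG k (LinFun k (Ob D) C)) (blkS D ta tb tf ea eb ef) ∧
      (∀ j, Nonempty (SepElt (A := cxDG k (LinFun k (Ob D) C)) (blkS D ta tb tf ea eb ef j))) ∧
      Nonempty (Decomp (A := cxDG k (LinFun k (Ob D) C)) (blkS D ta tb tf ea eb ef) P) :=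
  ⟨isBlocks_single _ (blkB_hom_zero D ta tb tf ea eb ef ha hb hf) fun i j =>
      blk_finite D ta tb tf haa hbb hff hba hfa hfb _ _,
    fun j => exists_sepElt _ (blkB_isSepAlg D ta tb tf ea eb ef (fun _ => sa _) (fun _ => sb _)
      (fun _ => sf _) j),
    nonempty_decomp_of_tw _ (exists_iso_blkB D ta tb tf ea eb ef hea heb hef) hP⟩

end Blk

/-- separability of the algebra of endomorphisms from an isomorphism with a field -/
lemma isSepAlg_of_field {k E : Type} [Field k] [Field E] [Algebra k E] [FiniteDimensional k E]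
    [Algebra.IsSeparable k E] {A : Type*} [Ring A] [Algebra k A] (e : Nonempty (E ≃ₐ[k] A)) :
    IsSepAlg k A :=
  e.elim fun e => (isSepAlg_field k E).equiv e

end Orl
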