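import Pool.Agent.Work.MP_a6e60d_ag.DG.Bridge
import Pool.Agent.Work.MP_a6e60d_ag.Sm.AppTri

/-!
MP_a6e60d_ag: classes of complexes whose morphisms in the homotopy category are the morphisms in
the derived category; thick closures.
-/

open CategoryTheory CochainComplex HomComplex Limits Pretriangulated ZeroObject ObjectProperty

attribute [-instance] CategoryTheory.catToReflQuiver

namespace Orl

universe w w'

variable {C : Type 1} [Category.{0} C] [Abelian C] [HasDerivedCategory.{w'} C]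

/-- A class of complexes closed under shifts and mapping cones such that the morphisms between
its members in the homotopy category are the morphisms in the derived category. -/
structure RepClass (S : ObjectProperty (CochainComplex C ℤ)) : Prop where
  shift : ∀ (K : CochainComplex C ℤ) (n : ℤ), S K → S (K⟦n⟧)
  cone : ∀ {K L : CochainComplex C ℤ} (f : K ⟶ L), S K → S L → S (mappingCone f)
  bij : ∀ K L : CochainComplex C ℤ, S K → S L → Function.Bijective
    (fun f : (HomotopyCategory.quotient C (ComplexShape.up ℤ)).obj K ⟶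
      (HomotopyCategory.quotient C (ComplexShape.up ℤ)).obj L =>
        (DerivedCategory.Qh (C := C)).map f)

namespace RepClass

variable {S : ObjectProperty (CochainComplex C ℤ)} (hS : RepClass S)

include hS

lemma exists_hom {K J : CochainComplex C ℤ} (hK : S K) (hJ : S J)
    (f : DerivedCategory.Q.obj K ⟶ DerivedCategory.Q.obj J) :
    ∃ φ : K ⟶ J, DerivedCategory.Q.map φ = f := by
  obtain ⟨g, hg⟩ := (hS.bij K J hK hJ).2
    ((DerivedCategory.quotientCompQhIso C).hom.app K ≫ f ≫
      (DerivedCategory.quotientCompQhIso C).inv.app J)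
  obtain ⟨φ, rfl⟩ := (HomotopyCategory.quotient C (ComplexShape.up ℤ)).map_surjective g
  refine ⟨φ, ?_⟩
  have h := DerivedCategory.quotientCompQhIso_hom_naturality φ
  change DerivedCategory.Qh.map _ = _ at hg
  rw [hg] at h
  simp only [Category.assoc, Iso.inv_hom_id_app, Category.comp_id] at h
  exact ((cancel_epi _).1 h).symm

lemma exists_z {K J : CochainComplex C ℤ} (hK : S K) (hJ : S J) {φ ψ : K ⟶ J}
    (h : DerivedCategory.Q.map φ = DerivedCategory.Q.map ψ) :
    ∃ z : Cochain K J (-1), δ (-1) 0 z = Cochain.ofHom φ - Cochain.ofHom ψ := by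
  have h1 := DerivedCategory.quotientCompQhIso_hom_naturality φ
  have h2 := DerivedCategory.quotientCompQhIso_hom_naturality ψ
  rw [h, ← h2] at h1
  have h3 := (hS.bij K J hK hJ).1 ((cancel_mono _).1 h1)
  obtain ⟨z, hz⟩ := Cochain.equivHomotopy φ ψ (HomotopyCategory.homotopyOfEq _ _ h3)
  exact ⟨z, by rw [hz, add_sub_cancel_right]⟩

omit hS in
variable (S) in
/-- the objects of the derived category represented by the members of `S` -/
def prop : ObjectProperty (DerivedCategory C) := fun X =>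
  ∃ J : CochainComplex C ℤ, S J ∧ Nonempty (DerivedCategory.Q.obj J ≅ X)

omit hS in
instance : (prop S).IsClosedUnderIsomorphisms where
  of_iso e := by
    rintro ⟨J, hJ, ⟨i⟩⟩
    exact ⟨J, hJ, ⟨i ≪≫ e⟩⟩

theorem prop_isTriangulated {P : CochainComplex C ℤ} (hP : S P) : (prop S).IsTriangulated := by
  have hc : ∀ (T : Triangle (DerivedCategory C)) (_ : T ∈ distTriang (DerivedCategory C))
      (_ : prop S T.obj₁) (_ : prop S T.obj₂), prop S T.obj₃ := by
    rintro T hT ⟨J₁, hJ₁, ⟨e₁⟩⟩ ⟨J₂, hJ₂, ⟨e₂⟩⟩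
    obtain ⟨φ, hφ⟩ := hS.exists_hom hJ₁ hJ₂ (e₁.hom ≫ T.mor₁ ≫ e₂.inv)
    have hT' := DerivedCategory.mappingCone_triangle_distinguished φ
    refine ⟨mappingCone φ, hS.cone φ hJ₁ hJ₂, ⟨?_⟩⟩
    exact Triangle.π₃.mapIso (isoTriangleOfIso₁₂ _ _ hT' hT e₁ e₂ (by
      change DerivedCategory.Q.map φ ≫ e₂.hom = e₁.hom ≫ T.mor₁
      rw [hφ]
      simp))
  have h3 : (prop S).IsTriangulatedClosed₃ := .mk' hc
  have hs : (prop S).IsStableUnderShift ℤ := ⟨fun n => ⟨by
    rintro X ⟨J, hJ, ⟨e⟩⟩
    exact ⟨J⟦n⟧, hS.shift J n hJ, ⟨(DerivedCategory.Q.commShiftIso n).app J ≪≫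
      (CategoryTheory.shiftFunctor _ n).mapIso e⟩⟩⟩⟩
  have h2 : (prop S).IsTriangulatedClosed₂ := .of_isTriangulatedClosed₃
  have hP' : prop S (DerivedCategory.Q.obj P) := ⟨P, hP, ⟨Iso.refl _⟩⟩
  have hz : (prop S).ContainsZero :=
    ⟨0, isZero_zero _, hc _ (contractible_distinguished (DerivedCategory.Q.obj P)) hP' hP'⟩
  exact {}

theorem exists_retract {P : CochainComplex C ℤ} (hP : S P)
    {G : ObjectProperty (DerivedCategory C)} (hG : G ≤ prop S) {N : DerivedCategory C}
    (hN : G.triangEnvelope N) :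
    ∃ J : CochainComplex C ℤ, S J ∧ Nonempty (Retract N (DerivedCategory.Q.obj J)) := by
  have h1 : (prop S).IsTriangulated := hS.prop_isTriangulated hP
  have h2 : (prop S).retractClosure.IsTriangulated := isTriangulated_retractClosure _
  have h3 := (triangEnvelope_le_iff (P := G) (Q := (prop S).retractClosure)).2
    (hG.trans (le_retractClosure _)) N hN
  obtain ⟨M, ⟨J, hJ, ⟨e⟩⟩, ⟨r⟩⟩ := h3
  exact ⟨J, hJ, ⟨⟨r.i ≫ e.inv, e.hom ≫ r.r, by simp⟩⟩⟩

/-- If `N` is in the thick closure of objects represented by members of `S` then `N ⊞ N⟦1⟧` is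
represented by a member of `S`. -/
theorem exists_rep {P : CochainComplex C ℤ} (hP : S P)
    {G : ObjectProperty (DerivedCategory C)} (hG : G ≤ prop S) {N : DerivedCategory C}
    (hN : G.triangEnvelope N) :
    ∃ X : CochainComplex C ℤ, S X ∧
      Nonempty (DerivedCategory.Q.obj X ≅ N ⊞ (N⟦(1 : ℤ)⟧)) := by
  have h1 : (prop S).IsTriangulated := hS.prop_isTriangulated hP
  obtain ⟨J, hJ, ⟨r⟩⟩ := hS.exists_retract hP hG hN
  exact biprod_shift_of_retract (prop S) r ⟨J, hJ, ⟨Iso.refl _⟩⟩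

variable {k : Type w} [CommRing k] [Linear k C]

omit hS in
variable (k) in
/-- the members of `S` in the DG thick closure of `P` -/
def sub (S : ObjectProperty (CochainComplex C ℤ)) (P : CochainComplex C ℤ) :
    ObjectProperty (CochainComplex C ℤ) := fun J =>
  S J ∧ DGCat.Thick (A := cxDG k C) P J

variable (k) in
theorem repClass_sub (P : CochainComplex C ℤ) : RepClass (sub k S P) where
  shift K n h := ⟨hS.shift K n h.1, .retract n (cxDGShift (k := k) n K).isRetract h.2⟩
  cone {K L} φ h h' := ⟨hS.cone φ h.1 h'.1, .cone (A := cxDG k C) (a := K) (b := L)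
    (Cochain.ofHom φ) (δ_ofHom φ) (cxCone φ) h.2 h'.2⟩
  bij K L h h' := hS.bij K L h.1 h'.1

omit hS in
lemma singleton_le_prop {P : CochainComplex C ℤ} (hP : S P) :
    ObjectProperty.singleton (DerivedCategory.Q.obj P) ≤ prop S := by
  rw [singleton_le_iff]
  exact ⟨P, hP, ⟨Iso.refl _⟩⟩

variable (k) in
/-- If `N` is in the thick closure of `Q P` then `N ⊞ N⟦1⟧` is represented by a member of `S` in
the DG thick closure of `P`. -/
theorem exists_rep_thick {P : CochainComplex C ℤ} (hP : S P) {N : DerivedCategory C}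
    (hN : ThkOf (DerivedCategory.Q.obj P) N) :
    ∃ X : CochainComplex C ℤ, S X ∧ DGCat.Thick (A := cxDG k C) P X ∧
      Nonempty (DerivedCategory.Q.obj X ≅ N ⊞ (N⟦(1 : ℤ)⟧)) := by
  have hP' : sub k S P P := ⟨hP, .gen⟩
  obtain ⟨X, hX, e⟩ := (hS.repClass_sub k P).exists_rep hP' (singleton_le_prop hP') hN
  exact ⟨X, hX.1, hX.2, e⟩

/-- For complexes of the class the thick closure can be computed in the derived category. -/
theorem thick_of {P X : CochainComplex C ℤ} (hP : S P) (hX : S X)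
    (h : ThkOf (DerivedCategory.Q.obj P) (DerivedCategory.Q.obj X)) :
    DGCat.Thick (A := cxDG k C) P X := by
  have hP' : sub k S P P := ⟨hP, .gen⟩
  obtain ⟨J, hJ, ⟨r⟩⟩ := (hS.repClass_sub k P).exists_retract hP' (singleton_le_prop hP') h
  obtain ⟨φ, hφ⟩ := hS.exists_hom hX hJ.1 r.i
  obtain ⟨ψ, hψ⟩ := hS.exists_hom hJ.1 hX r.r
  obtain ⟨z, hz⟩ := hS.exists_z hX hX (φ := φ ≫ ψ) (ψ := 𝟙 X) (by
    rw [Functor.map_comp, hφ, hψ, r.retract, CategoryTheory.Functor.map_id])
  rw [Cochain.ofHom_comp] at hz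
  exact .retract 0 ⟨Cochain.ofHom φ, Cochain.ofHom ψ, δ_ofHom φ, δ_ofHom ψ, z, hz⟩ hJ.2

end RepClass

end Orl
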