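import Pool.Agent.Work.MP_a6e60d_ag.Sm.Rep
import Pool.Agent.Work.MP_a6e60d_ag.LF.Tw

/-!
MP_a6e60d_ag: the iterated cones of single complexes form a representing class.
-/

open CategoryTheory CochainComplex HomComplex Limits Pretriangulated ZeroObject ObjectProperty

attribute [-instance] CategoryTheory.catToReflQuiver

namespace Orl

universe w w'

variable {C : Type 1} [Category.{0} C] [Abelian C] [HasDerivedCategory.{w'} C] [HasExt.{w} C]

/-- `Tw B` is a representing class if all higher Ext groups between the members of `B` vanish. -/
theorem repClass_tw {B : ObjectProperty C}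
    (hB : ∀ X Y, B X → B Y → ∀ n : ℕ, 0 < n → Subsingleton (Abelian.Ext.{w} X Y n)) :
    RepClass.{w'} (LF.Tw B) where
  shift K n hK := LF.Tw.shift K n hK
  cone f hK hL := LF.Tw.cone f hK hL
  bij K L hK hL := LF.tw_bijective hB K L hK hL

end Orl
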