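import Pool.Agent.Work.MP_a6e60d_ag.Sm.Vect
import Pool.Agent.Work.MP_a6e60d_ag.Sm.ThickF
import Pool.Agent.Work.MP_a6e60d_ag.DG.Elem
import Pool.Agent.Work.MP_a6e60d_ag.DG.Res

/-!
MP_a6e60d_ag: the tensor product (over a field) of two resolved modules is resolved.
-/

open CategoryTheory TensorProduct CochainComplex HomComplex

namespace Orl

variable {k : Type}

lemma gqis_iff_isQis [CommRing k] {E : DGAlg.{0} k} {U V : DGMod E} (q : (modDG E).Hom U V 0) :
    GQis (A := modDG E) E.self q ↔ DGMod.IsQis q := by
  rw [DGMod.isQis_iff]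
  exact ⟨fun h => ⟨h.closed, h.qiso⟩, fun h => gqis_of h.1 h.2⟩

variable [Field k] {R S : DGAlg.{0} k}

/-- The tensor product of two modules which are quasi-isomorphic to modules in the thick closure
of the free module of rank one has the same property. -/
theorem res_tens {U : DGMod R} {W : DGMod S} (hU : Res (A := modDG R) R.self U)
    (hW : Res (A := modDG S) S.self W) :
    Res (A := modDG (R.tensor S)) (R.tensor S).self (U.tens W) := by
  obtain ⟨T, hT, q, hq⟩ := hU
  obtain ⟨T', hT', q', hq'⟩ := hW
  have h₁ : Res (A := modDG (R.tensor S)) (R.tensor S).self (DGMod.tens T T') :=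
    Res.of_thick (thick_tens hT hT')
  have h₂ : GQis (A := modDG (R.tensor S)) (R.tensor S).self
      (a := DGMod.tens T T') (b := DGMod.tens U T') ((extL R T').map q) :=
    (gqis_iff_isQis _).2 (isQis_extL ((gqis_iff_isQis _).1 hq) T')
  have h₃ : GQis (A := modDG (R.tensor S)) (R.tensor S).self
      (a := DGMod.tens U T') (b := DGMod.tens U W) ((extR U S).map q') :=
    (gqis_iff_isQis _).2 (isQis_extR U ((gqis_iff_isQis _).1 hq'))
  exact (h₁.of_qis h₂).of_qis h₃

end Orl
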